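import Pool.Agent.L7h50.SI.Sie
import Pool.Agent.L7h19.RP.Stm4

/-! # Siegel's theorem over number fields (StSieg of project RP) -/

set_option autoImplicit false
set_option linter.unusedSectionVars false

open NumberField Complex Filter Topology

namespace Pool.Agent.L7h50.SI

open Pool.Agent.Y773 Pool.Agent.Y773.G.R78 Pool.Agent.Y773.G.R50
open Pool.Agent.W262.RK (Jr)
open Pool.Agent.H474R2.PG (PR)
open Pool.Agent.H921R2.TatePole (R R_le hc R_eq_hc)

lemma card_homs_le (K : Type) [Field K] [NumberField K] (p : Nat.Primes) :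
    (Nat.card (𝓞 K →+* ZMod p) : ℝ) ≤ Module.finrank ℚ K := by
  have h5 := R_le (K := K) p
  rw [R_eq_hc] at h5
  unfold hc at h5
  exact_mod_cast h5

/-- **StSieg** for the moduli `q > 1` -/
theorem sieg_gt (K : Type) [Field K] [NumberField K] {q : ℕ} (hq : 1 < q) {ε : ℝ} (hε : 0 < ε) :
    ∃ C : ℝ, ∀ (i : Idx q (discr K).natAbs) (y : ℝ), 3 ≤ y →
    -(ε * Real.log i.r) - C ≤
    ∑ p ∈ PR y, (Nat.card (𝓞 K →+* ZMod p) : ℝ) * i.v p / (p : ℝ) := by
  obtain ⟨C1, hC1, h1⟩ := sum_primes_abs K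
  obtain ⟨C2, h2⟩ := siegel_near K hq ε hε
  obtain ⟨C3, hC3, h3⟩ := trunc
  set n : ℕ := Module.finrank ℚ K with hn
  refine ⟨C1 + C2 + n * C3, fun i y hy => ?_⟩
  set x : ℝ := 1 + 1 / Real.log y with hx
  have hlog1 : 1 ≤ Real.log y := by
    have h1 : Real.exp 1 ≤ y := by
      have := Real.exp_one_lt_d9
      linarith
    have := Real.log_le_log (Real.exp_pos 1) h1
    rwa [Real.log_exp] at this
  have hlog0 : 0 < Real.log y := by linarith
  have hx1 : 1 < x := by rw [hx]; linarith [show (0 : ℝ) < 1 / Real.log y by positivity]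
  have hx2 : x ≤ 2 := by
    have : 1 / Real.log y ≤ 1 := by
      rw [div_le_one hlog0]
      exact hlog1
    rw [hx]; linarith
  have a1 := h1 (eta K i) (eta_le i) i.v (eta_prime i) x hx1
  have a2 := h2 i x hx1 hx2
  have hb : ∀ p : Nat.Primes, |-((Nat.card (𝓞 K →+* ZMod p) : ℝ) * i.v p)| ≤ n := by
    intro p
    rw [abs_neg, abs_mul, Nat.abs_cast]
    have h4 : (Nat.card (𝓞 K →+* ZMod p) : ℝ) ≤ n := card_homs_le K p
    calc _ ≤ (n : ℝ) * 1 := mul_le_mul h4 (i.v_abs p) (abs_nonneg _) (Nat.cast_nonneg n)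
      _ = n := mul_one _
  have a3 := h3 (fun p => -((Nat.card (𝓞 K →+* ZMod p) : ℝ) * i.v p)) n (Nat.cast_nonneg n) hb y hy
  have e1 : ∑' p : Nat.Primes, -((Nat.card (𝓞 K →+* ZMod p) : ℝ) * i.v p) *
      Pool.Agent.H921R2.TatePole.w (1 + 1 / Real.log y) p =
      -∑' p : Nat.Primes, ((R K p : ℝ) * i.v p) * Pool.Agent.H921R2.TatePole.w x p := by
    rw [← tsum_neg]
    refine tsum_congr fun p => ?_
    rw [R_eq_hc]
    unfold hc
    ring
  have e2 : ∑ p ∈ PR y, -((Nat.card (𝓞 K →+* ZMod p) : ℝ) * i.v p) / (p : ℝ) =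
      -∑ p ∈ PR y, (Nat.card (𝓞 K →+* ZMod p) : ℝ) * i.v p / (p : ℝ) := by
    rw [← Finset.sum_neg_distrib]
    refine Finset.sum_congr rfl fun p _ => ?_
    ring
  rw [e1, e2] at a3
  rw [abs_le] at a1
  linarith [a1.1, a1.2]

/-- **StSieg** -/
theorem stSieg : Pool.Agent.L7h19.RP.StSieg := by
  intro K _ _ q₀ ε hq₀ hε
  have hq : 1 < 2 * q₀ := by omega
  obtain ⟨C, hC⟩ := sieg_gt K hq hε
  set n : ℕ := Module.finrank ℚ K with hn
  refine ⟨C + n, 2 * q₀ + (discr K).natAbs + 2, fun ψ r hr hsf hz y hy => ?_⟩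
  set ψ' : DirichletCharacter ℤ (2 * q₀) := DirichletCharacter.changeLevel (Nat.dvd_mul_left q₀ 2) ψ
    with hψ'
  set i : Idx (2 * q₀) (discr K).natAbs := ⟨ψ', r, hr, hsf, hz⟩ with hi
  have h1 := hC i y hy
  have hir : i.r = r := rfl
  rw [hir] at h1
  -- comparison
  have hval : ∀ p : ℕ, p.Prime → p ≠ 2 →
      i.v p = ((ψ (p : ZMod q₀) : ℤ) : ℝ) * Jr (p : ℤ) r := by
    intro p hp hp2
    have e1 : i.v p = ((ψ' (p : ZMod (2 * q₀)) : ℤ) : ℝ) * Jr (p : ℤ) r := rfl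
    rw [e1]
    congr 2
    by_cases hcop : Nat.Coprime p q₀
    · have hcop2 : Nat.Coprime p (2 * q₀) :=
        Nat.Coprime.mul_right ((Nat.coprime_primes hp Nat.prime_two).2 hp2) hcop
      have hu : IsUnit ((p : ℕ) : ZMod (2 * q₀)) := (ZMod.isUnit_iff_coprime _ _).2 hcop2
      have h3 := DirichletCharacter.changeLevel_eq_cast_of_dvd ψ (Nat.dvd_mul_left q₀ 2) hu.unit
      rw [hψ']
      rw [IsUnit.unit_spec] at h3
      rw [h3]
      congr 1
      exact ZMod.cast_natCast (Nat.dvd_mul_left q₀ 2) p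
    · rw [MulChar.map_nonunit ψ (fun h => hcop ((ZMod.isUnit_iff_coprime _ _).1 h)),
        MulChar.map_nonunit ψ' (fun h => hcop
          (Nat.Coprime.coprime_mul_left_right ((ZMod.isUnit_iff_coprime _ _).1 h)))]
  -- the values are at most one
  have hψ1 : ∀ m : ℕ, |(((ψ (m : ZMod q₀) : ℤ) : ℝ) * Jr (m : ℤ) r)| ≤ 1 := by
    intro m
    have := (⟨ψ, r, hr, hsf, fun p hp hd => by have := hz p hp hd; omega⟩ :
      Idx q₀ (discr K).natAbs).v_abs m
    exact this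
  have hterm : ∀ p ∈ PR y, (Nat.card (𝓞 K →+* ZMod p) : ℝ) * i.v p / (p : ℝ) -
      (if p = 2 then (n : ℝ) else 0) ≤ (Nat.card (𝓞 K →+* ZMod p) : ℝ) *
      (((ψ (p : ZMod q₀) : ℤ) : ℝ) * Jr (p : ℤ) r) / (p : ℝ) := by
    intro p hp
    have hpp : p.Prime := by
      unfold PR at hp
      exact (Finset.mem_filter.1 hp).2
    by_cases h2 : p = 2
    · rw [if_pos h2]
      have h4 : (Nat.card (𝓞 K →+* ZMod p) : ℝ) ≤ n := card_homs_le K ⟨p, hpp⟩
      have h0 : (0 : ℝ) ≤ (Nat.card (𝓞 K →+* ZMod p) : ℝ) := Nat.cast_nonneg _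
      have h5 := (abs_le.1 (i.v_abs p)).2
      have h6 := (abs_le.1 (hψ1 p)).1
      have h7 : i.v p - (((ψ (p : ZMod q₀) : ℤ) : ℝ) * Jr (p : ℤ) r) ≤ 2 := by linarith
      have h8 : (Nat.card (𝓞 K →+* ZMod p) : ℝ) *
          (i.v p - (((ψ (p : ZMod q₀) : ℤ) : ℝ) * Jr (p : ℤ) r)) ≤ n * 2 := by
        refine (mul_le_mul_of_nonneg_left h7 h0).trans ?_
        exact mul_le_mul_of_nonneg_right h4 (by norm_num)
      have hp2 : (p : ℝ) = 2 := by exact_mod_cast h2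
      rw [hp2]
      linarith
    · rw [if_neg h2, hval p hpp h2, sub_zero]
  have h2 := Finset.sum_le_sum hterm
  rw [Finset.sum_sub_distrib] at h2
  have h3 : ∑ p ∈ PR y, (if p = 2 then (n : ℝ) else 0) ≤ n := by
    rw [Finset.sum_ite_eq']
    split_ifs
    · exact le_rfl
    · exact Nat.cast_nonneg _
  linarith

end Pool.Agent.L7h50.SI
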