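import Pool.Agent.L7h50.SI.Est

/-! Siegel's theorem in an abstract form. -/

set_option autoImplicit false

open Filter Topology Set
open scoped ComplexOrder

namespace Pool.Agent.L7h50.SI

lemma re_prod {a b : ℂ} (hb : b.im = 0) : (a * b).re = a.re * b.re := by
  rw [Complex.mul_re, hb, mul_zero, sub_zero]

lemma eq_re {a : ℂ} (h : a.im = 0) : a = (a.re : ℂ) := by
  apply Complex.ext
  · simp
  · simpa using h

/-- positivity by continuity -/
lemma pos_of_nz {f : ℂ → ℂ} (hf : Differentiable ℂ f) (hr : ∀ x : ℝ, (f x).im = 0)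
    (hpos : ∀ x : ℝ, 1 ≤ x → 0 < (f x).re) {β : ℝ} (hβ1 : β < 1)
    (hnz : ∀ y : ℝ, β ≤ y → y < 1 → f (y : ℂ) ≠ 0) : 0 < (f (β : ℂ)).re := by
  by_contra hneg
  push Not at hneg
  have hc : ContinuousOn (fun y : ℝ => (f (y : ℂ)).re) (Icc β 2) := by
    apply Continuous.continuousOn
    exact Complex.continuous_re.comp (hf.continuous.comp Complex.continuous_ofReal)
  have h2 : (0 : ℝ) ≤ (f ((2 : ℝ) : ℂ)).re := (hpos 2 (by norm_num)).le
  have := intermediate_value_Icc (by linarith : β ≤ 2) hc ⟨hneg, h2⟩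
  obtain ⟨y, ⟨hy1, hy2⟩, hy3⟩ := this
  have hy3' : (f (y : ℂ)).re = 0 := hy3
  rcases lt_or_ge y 1 with h3 | h3
  · refine hnz y hy1 h3 ?_
    apply Complex.ext
    · simpa using hy3
    · simpa using hr y
  · have := hpos y h3
    rw [hy3'] at this
    exact lt_irrefl _ this

/-- **Siegel's theorem**, abstract form -/
theorem abs_siegel {I : Type} (Z : ℂ → ℂ) (L : I → ℂ → ℂ) (r : I → ℝ) (op : I → I → I)
    (hZ : Differentiable ℂ Z) (hZr : ∀ x : ℝ, (Z x).im = 0) (hZ1 : 0 < (Z 1).re)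
    (hZ2 : 0 < (Z 2).re) (hL : ∀ i, Differentiable ℂ (L i)) (hLr : ∀ i (x : ℝ), (L i x).im = 0)
    (hr : ∀ i, 1 ≤ r i) (hLpos : ∀ i (x : ℝ), 1 ≤ x → 0 < (L i x).re)
    (c₂ : ℝ) (hc₂ : 0 < c₂) (hL2 : ∀ i, c₂ ≤ (L i 2).re)
    (A B : ℝ) (hA : 0 ≤ A) (hbd : ∀ i (s : ℂ), ‖s - 2‖ ≤ 3 / 2 → ‖L i s‖ ≤ B * r i ^ A)
    (hU : ∀ η : ℝ, 0 < η → ∃ C : ℝ, ∀ i, ‖L i 1‖ ≤ C * r i ^ η)
    (hop : ∀ i j, r i ≠ r j → r (op i j) ≤ r i * r j)
    (g : I → I → ℕ → ℂ) (hg : ∀ i j, r i ≠ r j → (∀ n, 0 ≤ g i j n) ∧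
      (∀ s : ℂ, 1 < s.re → LSeriesSummable (g i j) s) ∧ ∀ s : ℂ, 1 < s.re →
        deriv (fun s => (Z s * (L i s * L j s * L (op i j) s)) / (s - 1)) s =
          -(LSeries (g i j) s * ((Z s * (L i s * L j s * L (op i j) s)) / (s - 1))))
    (hfin : ∀ i, ∃ c : ℝ, 0 < c ∧ ∀ j, r j = r i → c ≤ (L j 1).re) :
    ∀ ε : ℝ, 0 < ε → ∃ c : ℝ, 0 < c ∧ ∀ i, c * r i ^ (-ε) ≤ (L i 1).re := by
  classical
  intro ε hε
  rcases isEmpty_or_nonempty I with hI | hI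
  · exact ⟨1, one_pos, fun i => (hI.false i).elim⟩
  -- a neighbourhood of `1` where `Z` is positive
  obtain ⟨η₁, hη₁, hZη⟩ : ∃ η₁ : ℝ, 0 < η₁ ∧ ∀ x : ℝ, 1 - η₁ < x → x ≤ 1 → 0 < (Z (x : ℂ)).re := by
    have hc : Continuous (fun y : ℝ => (Z (y : ℂ)).re) :=
      Complex.continuous_re.comp (hZ.continuous.comp Complex.continuous_ofReal)
    have h1 : ∀ᶠ y : ℝ in 𝓝 1, 0 < (Z (y : ℂ)).re := by
      refine hc.continuousAt.eventually (lt_mem_nhds ?_)
      simpa using hZ1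
    obtain ⟨δ, hδ, h⟩ := Metric.eventually_nhds_iff.1 h1
    refine ⟨δ, hδ, fun x hx1 hx2 => h ?_⟩
    rw [Real.dist_eq, abs_lt]
    constructor <;> linarith
  set η : ℝ := min (min (ε / (8 * A + 1)) (1 / 16)) (η₁ / 2) with hη
  have hA1 : 0 < 8 * A + 1 := by linarith
  have hη0 : 0 < η := by
    rw [hη]
    refine lt_min (lt_min (by positivity) (by norm_num)) (by positivity)
  have hη16 : η ≤ 1 / 16 := (min_le_left _ _).trans (min_le_right _ _)
  have hηε : (8 * A + 1) * η ≤ ε := by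
    have h1 : η ≤ ε / (8 * A + 1) := (min_le_left _ _).trans (min_le_left _ _)
    rw [le_div_iff₀ hA1] at h1
    linarith
  have hηη : η < η₁ := by
    have : η ≤ η₁ / 2 := min_le_right _ _
    linarith
  -- the exceptional character
  obtain ⟨i₁, β, hβ1, hβ2, hβ⟩ : ∃ (i₁ : I) (β : ℝ), 1 - η ≤ β ∧ β < 1 ∧ ∀ j,
      0 ≤ (Z (β : ℂ) * (L i₁ β * L j β * L (op i₁ j) β)).re := by
    by_cases hz : ∃ (i : I) (β : ℝ), 1 - η ≤ β ∧ β < 1 ∧ L i (β : ℂ) = 0
    · obtain ⟨i, β, h1, h2, h3⟩ := hz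
      refine ⟨i, β, h1, h2, fun j => ?_⟩
      rw [h3]
      simp
    · push Not at hz
      obtain ⟨i⟩ := hI
      have hp : ∀ j, 0 < (L j ((1 - η : ℝ) : ℂ)).re := fun j =>
        pos_of_nz (hL j) (hLr j) (hLpos j) (by linarith) (fun y hy1 hy2 => hz j y hy1 hy2)
      refine ⟨i, 1 - η, le_rfl, by linarith, fun j => ?_⟩
      have hzp := hZη (1 - η) (by linarith) (by linarith)
      have him : (L i ((1 - η : ℝ) : ℂ) * L j ((1 - η : ℝ) : ℂ) *
          L (op i j) ((1 - η : ℝ) : ℂ)).im = 0 := by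
        rw [eq_re (hLr i _), eq_re (hLr j _), eq_re (hLr (op i j) _)]
        norm_cast
      rw [re_prod him, re_prod (hLr _ _), re_prod (hLr _ _)]
      exact (mul_pos hzp (mul_pos (mul_pos (hp i) (hp j)) (hp _))).le
  have h1β : 0 < 1 - β := by linarith
  obtain ⟨c₁, hc₁, hmin⟩ := hfin i₁
  obtain ⟨C, hC⟩ := hU η hη0
  have hC0 : 0 ≤ C := by
    have h1 := (norm_nonneg _).trans (hC i₁)
    have h2 : 0 < r i₁ ^ η := Real.rpow_pos_of_pos (by linarith [hr i₁]) _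
    by_contra h
    push Not at h
    have := mul_neg_of_neg_of_pos h h2
    linarith
  -- bound for `Z`
  obtain ⟨BZ, hBZ⟩ := (isCompact_closedBall (2 : ℂ) (3 / 2)).exists_bound_of_continuousOn
    hZ.continuous.continuousOn
  have hBZ' : ∀ s : ℂ, ‖s - 2‖ ≤ 3 / 2 → ‖Z s‖ ≤ BZ := fun s hs =>
    hBZ s (by rwa [Metric.mem_closedBall, dist_eq_norm])
  have hBZ0 : 0 < BZ := by
    have h1 := hBZ' 2 (by norm_num)
    have h2 := Complex.re_le_norm (Z 2)
    linarith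
  have hr1 : (1 : ℝ) ≤ r i₁ := hr i₁
  have hr1' : (0 : ℝ) < r i₁ := by linarith
  have hB0 : 0 < B := by
    have h1 := hbd i₁ 2 (by norm_num)
    have h2 := Complex.re_le_norm (L i₁ 2)
    have h3 := hL2 i₁
    have h4 : 0 < r i₁ ^ A := Real.rpow_pos_of_pos hr1' _
    by_contra h
    push Not at h
    have := mul_nonpos_of_nonpos_of_nonneg h h4.le
    linarith
  set c₀ : ℝ := (Z 2).re * c₂ ^ 3 with hc₀
  have hc₀0 : 0 < c₀ := by positivity
  set K₁ : ℝ := 32 * (BZ * B ^ 3 * (r i₁ ^ (2 * A))) / c₀ with hK₁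
  have hK₁0 : 0 < K₁ := by positivity
  set C' : ℝ := C + 1 with hC'
  have hC'0 : 0 < C' := by linarith
  set W : ℝ := (Z 1).re * (C' * r i₁ ^ η) * (C' * r i₁ ^ η) with hW
  have hW0 : 0 < W := by positivity
  set c₃ : ℝ := c₀ / 4 * (1 - β) * K₁ ^ (-(4 * η)) / W with hc₃
  have hc₃0 : 0 < c₃ := by positivity
  refine ⟨min c₁ c₃, lt_min hc₁ hc₃0, fun j => ?_⟩
  have hrj : (1 : ℝ) ≤ r j := hr j
  have hrj' : (0 : ℝ) < r j := by linarith
  by_cases hij : r j = r i₁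
  · have h1 := hmin j hij
    have h2 : r j ^ (-ε) ≤ 1 := Real.rpow_le_one_of_one_le_of_nonpos hrj (by linarith)
    have h3 : 0 < r j ^ (-ε) := Real.rpow_pos_of_pos hrj' _
    calc min c₁ c₃ * r j ^ (-ε) ≤ c₁ * 1 := mul_le_mul (min_le_left _ _) h2 h3.le hc₁.le
      _ ≤ _ := by rw [mul_one]; exact h1
  have hne : r i₁ ≠ r j := fun h => hij h.symm
  have hopj := hop i₁ j hne
  have hro : (1 : ℝ) ≤ r (op i₁ j) := hr _
  obtain ⟨hg1, hg2, hg3⟩ := hg i₁ j hne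
  set P : ℂ → ℂ := fun s => Z s * (L i₁ s * L j s * L (op i₁ j) s) with hP
  have hPd : Differentiable ℂ P := hZ.mul (((hL i₁).mul (hL j)).mul (hL _))
  set B' : ℝ := BZ * (B * r i₁ ^ A * (B * r j ^ A) * (B * (r i₁ * r j) ^ A)) with hB'
  have hPB : ∀ s : ℂ, ‖s - 2‖ ≤ 3 / 2 → ‖P s‖ ≤ B' := by
    intro s hs
    have h1 := hbd i₁ s hs
    have h2 := hbd j s hs
    have h3 : ‖L (op i₁ j) s‖ ≤ B * (r i₁ * r j) ^ A :=
      (hbd _ s hs).trans (mul_le_mul_of_nonneg_left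
        (Real.rpow_le_rpow (by linarith) hopj hA) hB0.le)
    rw [hP]
    simp only [norm_mul]
    have hp1 : 0 ≤ r i₁ ^ A := by positivity
    have hp2 : 0 ≤ r j ^ A := by positivity
    refine mul_le_mul (hBZ' s hs) (mul_le_mul (mul_le_mul h1 h2 (norm_nonneg _) (by positivity)) h3
      (norm_nonneg _) (by positivity)) (by positivity) hBZ0.le
  have him : ∀ x : ℝ, (L i₁ (x : ℂ) * L j (x : ℂ) * L (op i₁ j) (x : ℂ)).im = 0 := by
    intro x
    rw [eq_re (hLr i₁ _), eq_re (hLr j _), eq_re (hLr (op i₁ j) _)]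
    norm_cast
  have hPre : ∀ x : ℝ, (P (x : ℂ)).re =
      (Z (x : ℂ)).re * ((L i₁ x).re * (L j x).re * (L (op i₁ j) x).re) := by
    intro x
    rw [hP]
    simp only
    rw [re_prod (him x), re_prod (hLr _ _), re_prod (hLr _ _)]
  have hPim : ∀ x : ℝ, (P (x : ℂ)).im = 0 := by
    intro x
    rw [hP]
    simp only
    rw [eq_re (hZr x), eq_re (him x)]
    norm_cast
  have hP2 : (c₀ : ℂ) ≤ P 2 := by
    have e2 : ((2 : ℝ) : ℂ) = 2 := by norm_num
    have h1 := hPre 2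
    have h2 := hPim 2
    rw [e2] at h1 h2
    rw [Complex.le_def]
    constructor
    · rw [Complex.ofReal_re, h1, hc₀]
      have a1 := hL2 i₁
      have a2 := hL2 j
      have a3 := hL2 (op i₁ j)
      refine mul_le_mul_of_nonneg_left ?_ hZ2.le
      calc c₂ ^ 3 = c₂ * c₂ * c₂ := by ring
        _ ≤ _ := mul_le_mul (mul_le_mul a1 a2 hc₂.le (by linarith)) a3 hc₂.le
            (mul_nonneg (by linarith) (by linarith))
    · rw [Complex.ofReal_im, h2]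
  have hc₀B : c₀ ≤ B' := by
    have h1 := (Complex.le_def.1 hP2).1
    rw [Complex.ofReal_re] at h1
    exact h1.trans ((Complex.re_le_norm _).trans (hPB 2 (by norm_num)))
  have hest := estermann hPd hg1 hg2 hg3 hc₀0 hP2 hc₀B hPB (β := β) (by linarith) hβ2 (hβ j)
  -- simplify
  have hX : 32 * B' / c₀ = K₁ * r j ^ (2 * A) := by
    rw [hB', hK₁, Real.mul_rpow hr1'.le hrj'.le, two_mul, Real.rpow_add hr1', Real.rpow_add hrj']
    ring
  have hX1 : 1 ≤ K₁ * r j ^ (2 * A) := by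
    rw [← hX, le_div_iff₀ hc₀0]
    linarith
  rw [hX] at hest
  have h4 : (K₁ * r j ^ (2 * A)) ^ (-(4 * η)) ≤ (K₁ * r j ^ (2 * A)) ^ (-(4 * (1 - β))) :=
    Real.rpow_le_rpow_of_exponent_le hX1 (by linarith)
  have h5 : (K₁ * r j ^ (2 * A)) ^ (-(4 * η)) = K₁ ^ (-(4 * η)) * r j ^ (-(8 * A * η)) := by
    rw [Real.mul_rpow hK₁0.le (by positivity), ← Real.rpow_mul hrj'.le]
    congr 2
    ring
  rw [h5] at h4
  have h6 : c₀ / 4 * (1 - β) * (K₁ ^ (-(4 * η)) * r j ^ (-(8 * A * η))) ≤ (P 1).re :=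
    (mul_le_mul_of_nonneg_left h4 (by positivity)).trans hest
  have h7 : (P 1).re = (Z 1).re * ((L i₁ 1).re * (L j 1).re * (L (op i₁ j) 1).re) := by
    have := hPre 1
    simpa using this
  have hp1 : 0 < (L i₁ 1).re := by simpa using hLpos i₁ 1 le_rfl
  have hpj : 0 < (L j 1).re := by simpa using hLpos j 1 le_rfl
  have hpo : 0 < (L (op i₁ j) 1).re := by simpa using hLpos (op i₁ j) 1 le_rfl
  have u1 : (L i₁ 1).re ≤ C' * r i₁ ^ η := by
    refine (Complex.re_le_norm _).trans ((hC i₁).trans ?_)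
    exact mul_le_mul_of_nonneg_right (by linarith) (by positivity)
  have u2 : (L (op i₁ j) 1).re ≤ C' * r i₁ ^ η * r j ^ η := by
    refine (Complex.re_le_norm _).trans ((hC _).trans ?_)
    rw [mul_assoc, ← Real.mul_rpow hr1'.le hrj'.le]
    exact mul_le_mul (by linarith) (Real.rpow_le_rpow (by linarith) hopj hη0.le) (by positivity)
      hC'0.le
  have h8 : (P 1).re ≤ (L j 1).re * (W * r j ^ η) := by
    rw [h7, hW]
    have h9 : (L i₁ 1).re * (L (op i₁ j) 1).re ≤ (C' * r i₁ ^ η) * (C' * r i₁ ^ η * r j ^ η) :=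
      mul_le_mul u1 u2 hpo.le (by positivity)
    have h10 : 0 < (Z 1).re * (L j 1).re := mul_pos hZ1 hpj
    calc (Z 1).re * ((L i₁ 1).re * (L j 1).re * (L (op i₁ j) 1).re)
        = ((Z 1).re * (L j 1).re) * ((L i₁ 1).re * (L (op i₁ j) 1).re) := by ring
      _ ≤ ((Z 1).re * (L j 1).re) * ((C' * r i₁ ^ η) * (C' * r i₁ ^ η * r j ^ η)) :=
          mul_le_mul_of_nonneg_left h9 h10.le
      _ = _ := by ring
  have h9 := h6.trans h8
  have hrη : 0 < r j ^ η := by positivity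
  have h10 : c₃ * r j ^ (-((8 * A + 1) * η)) ≤ (L j 1).re := by
    have e1 : r j ^ (-((8 * A + 1) * η)) = r j ^ (-(8 * A * η)) / r j ^ η := by
      rw [← Real.rpow_sub hrj']
      congr 1
      ring
    rw [e1, hc₃, div_mul_div_comm, div_le_iff₀ (by positivity)]
    calc _ = c₀ / 4 * (1 - β) * (K₁ ^ (-(4 * η)) * r j ^ (-(8 * A * η))) := by ring
      _ ≤ _ := h9
  calc min c₁ c₃ * r j ^ (-ε) ≤ c₃ * r j ^ (-((8 * A + 1) * η)) :=
        mul_le_mul (min_le_right _ _)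
          (Real.rpow_le_rpow_of_exponent_le hrj (by linarith)) (by positivity) hc₃0.le
    _ ≤ _ := h10

end Pool.Agent.L7h50.SI
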