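import Mathlib

/-! Siegel's theorem (Estermann's proof) in an abstract form: the key inequality. The proof follows
`Pool/Agent/H307R2/Sg2.lean` to `Sg5.lean`. -/

set_option autoImplicit false

open Filter Topology Set
open scoped ComplexOrder

namespace Pool.Agent.L7h50.SI

lemma alt {F G : ℂ → ℂ} {x : ℂ} (hF : AnalyticAt ℂ F x) (hG : AnalyticAt ℂ G x)
    (hd : deriv F =ᶠ[𝓝 x] fun s => -(G s * F s)) (h0 : 0 ≤ F x)
    (hGp : ∀ j, 0 ≤ (-1 : ℂ) ^ j * iteratedDeriv j G x) :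
    ∀ m, 0 ≤ (-1 : ℂ) ^ m * iteratedDeriv m F x := by
  intro m
  induction m using Nat.strong_induction_on with
  | _ m ih =>
    rcases m with _ | m
    · simpa using h0
    · rw [iteratedDeriv_succ', hd.iteratedDeriv_eq m, iteratedDeriv_fun_neg,
        iteratedDeriv_fun_mul hG.contDiffAt hF.contDiffAt]
      have e : (-1 : ℂ) ^ (m + 1) * -∑ i ∈ Finset.range (m + 1),
          (m.choose i : ℂ) * iteratedDeriv i G x * iteratedDeriv (m - i) F x =
          ∑ i ∈ Finset.range (m + 1), (m.choose i : ℂ) * ((-1 : ℂ) ^ i * iteratedDeriv i G x) *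
            ((-1 : ℂ) ^ (m - i) * iteratedDeriv (m - i) F x) := by
        rw [pow_succ, mul_neg_one, neg_mul_neg, Finset.mul_sum]
        refine Finset.sum_congr rfl fun i hi => ?_
        rw [Finset.mem_range] at hi
        have : (-1 : ℂ) ^ m = (-1 : ℂ) ^ i * (-1 : ℂ) ^ (m - i) := by
          rw [← pow_add]; congr 1; omega
        rw [this]; ring
      rw [e]
      refine Finset.sum_nonneg fun i hi => ?_
      rw [Finset.mem_range] at hi
      refine mul_nonneg (mul_nonneg ?_ (hGp i)) (ih (m - i) (by omega))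
      exact_mod_cast Nat.zero_le _

lemma key_real (κ b : ℕ → ℝ) (lam B u Kb c₀ : ℝ) (hc₀ : 0 < c₀) (hκ : ∀ m, κ m = b m - lam)
    (hb : ∀ m, 0 ≤ b m) (hb0 : c₀ ≤ b 0) (hB : ∀ m, |κ m| ≤ B * (2 / 3) ^ m) (hu1 : 1 < u)
    (hu2 : u ≤ 9 / 8) (hsum : HasSum (fun m => κ m * u ^ m) Kb) (hK : Kb ≤ lam / (u - 1)) (M : ℕ)
    (hM0 : 0 < M) (hM : 8 * B / c₀ ≤ (4 / 3) ^ M) : c₀ / 2 * (u - 1) ≤ lam * u ^ M := by
  have hu0 : 0 < u - 1 := by linarith
  have hB0 : 0 ≤ B := by
    have := hB 0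
    have h2 := abs_nonneg (κ 0)
    simp at this
    linarith
  have h1 := (hasSum_nat_add_iff' M).2 hsum
  have h2 : HasSum (fun n : ℕ => -(B * (3 / 4) ^ M * (3 / 4 : ℝ) ^ n))
      (-(B * (3 / 4) ^ M * (1 - 3 / 4)⁻¹)) :=
    ((hasSum_geometric_of_lt_one (by norm_num) (by norm_num)).mul_left _).neg
  have h3 : -(B * (3 / 4) ^ M * (1 - 3 / 4)⁻¹) ≤ Kb - ∑ i ∈ Finset.range M, κ i * u ^ i := by
    refine hasSum_le ?_ h2 h1
    intro n
    have h4 : |κ (n + M) * u ^ (n + M)| ≤ B * (3 / 4) ^ M * (3 / 4 : ℝ) ^ n := by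
      rw [abs_mul, abs_of_pos (pow_pos (by linarith : 0 < u) _)]
      calc |κ (n + M)| * u ^ (n + M) ≤ B * (2 / 3) ^ (n + M) * (9 / 8) ^ (n + M) := by
            refine mul_le_mul (hB _) (pow_le_pow_left₀ (by linarith) hu2 _) (by positivity)
              (by positivity)
        _ = B * (3 / 4) ^ (n + M) := by
            rw [mul_assoc, ← mul_pow]; norm_num
        _ = B * (3 / 4) ^ M * (3 / 4 : ℝ) ^ n := by rw [pow_add]; ring
    have h5 := neg_abs_le (κ (n + M) * u ^ (n + M))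
    linarith
  have h4 : B * (3 / 4) ^ M * (1 - 3 / 4)⁻¹ ≤ c₀ / 2 := by
    have e : (3 / 4 : ℝ) ^ M = ((4 / 3 : ℝ) ^ M)⁻¹ := by rw [← inv_pow]; norm_num
    have hp : (0 : ℝ) < (4 / 3) ^ M := by positivity
    rw [e]
    have e2 : B * ((4 / 3 : ℝ) ^ M)⁻¹ * (1 - 3 / 4)⁻¹ = (4 * B) / (4 / 3) ^ M := by
      field_simp
      norm_num
    rw [e2, div_le_iff₀ hp]
    rw [div_le_iff₀ hc₀] at hM
    linarith
  have h5 : c₀ ≤ ∑ i ∈ Finset.range M, b i * u ^ i := by
    have h6 : b 0 * u ^ 0 ≤ ∑ i ∈ Finset.range M, b i * u ^ i := by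
      refine Finset.single_le_sum (f := fun i => b i * u ^ i) ?_ (Finset.mem_range.2 hM0)
      intro i _
      exact mul_nonneg (hb i) (by positivity)
    simp at h6
    linarith
  have h6 : ∑ i ∈ Finset.range M, κ i * u ^ i =
      ∑ i ∈ Finset.range M, b i * u ^ i - lam * ((u ^ M - 1) / (u - 1)) := by
    rw [← geom_sum_eq hu1.ne' M, Finset.mul_sum, ← Finset.sum_sub_distrib]
    refine Finset.sum_congr rfl fun i _ => ?_
    rw [hκ]; ring
  have h7 : c₀ / 2 - lam * ((u ^ M - 1) / (u - 1)) ≤ lam / (u - 1) := by linarith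
  have h8 : (c₀ / 2 - lam * ((u ^ M - 1) / (u - 1))) * (u - 1) ≤ lam := by
    rwa [← le_div_iff₀ hu0]
  have h9 : (c₀ / 2 - lam * ((u ^ M - 1) / (u - 1))) * (u - 1) =
      c₀ / 2 * (u - 1) - lam * (u ^ M - 1) := by
    field_simp
  rw [h9] at h8
  linarith

/-- choice of `M` -/
lemma choose_M {X u : ℝ} (hX : 1 ≤ X) (hu1 : 1 < u) (hu2 : u ≤ 9 / 8) : ∃ M : ℕ, 0 < M ∧
    X ≤ (4 / 3) ^ M ∧ u ^ M ≤ 2 * X ^ (4 * (u - 1)) := by
  have hX0 : 0 < X := by linarith
  have hlog : 0 ≤ Real.log X := Real.log_nonneg hX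
  refine ⟨⌈4 * Real.log X⌉₊ + 1, by omega, ?_, ?_⟩
  · have h1 : 4 * Real.log X ≤ (⌈4 * Real.log X⌉₊ : ℝ) := Nat.le_ceil _
    have h2 : Real.exp (1 / 4) ≤ 4 / 3 := by
      have h3 : 1 - 1 / 4 ≤ Real.exp (-(1 / 4)) := by
        have := Real.add_one_le_exp (-(1 / 4) : ℝ)
        linarith
      rw [Real.exp_neg] at h3
      have h4 : (0 : ℝ) < Real.exp (1 / 4) := Real.exp_pos _
      have h5 : (3 / 4 : ℝ) ≤ (Real.exp (1 / 4))⁻¹ := by linarith
      rw [le_inv_comm₀ (by norm_num) h4] at h5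
      linarith
    calc X = Real.exp (Real.log X) := (Real.exp_log hX0).symm
      _ ≤ Real.exp ((⌈4 * Real.log X⌉₊ + 1 : ℕ) * (1 / 4)) := by
          apply Real.exp_le_exp.2
          push_cast
          linarith
      _ = Real.exp (1 / 4) ^ (⌈4 * Real.log X⌉₊ + 1) := by rw [Real.exp_nat_mul]
      _ ≤ (4 / 3) ^ (⌈4 * Real.log X⌉₊ + 1) := pow_le_pow_left₀ (Real.exp_pos _).le h2 _
  · have h1 : (⌈4 * Real.log X⌉₊ : ℝ) ≤ 4 * Real.log X + 1 :=
      (Nat.ceil_lt_add_one (by positivity)).le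
    have hu0 : 0 ≤ u - 1 := by linarith
    have h2 : u ≤ Real.exp (u - 1) := by
      have := Real.add_one_le_exp (u - 1)
      linarith
    calc u ^ (⌈4 * Real.log X⌉₊ + 1) ≤ Real.exp (u - 1) ^ (⌈4 * Real.log X⌉₊ + 1) :=
          pow_le_pow_left₀ (by linarith) h2 _
      _ = Real.exp ((⌈4 * Real.log X⌉₊ + 1 : ℕ) * (u - 1)) := by rw [Real.exp_nat_mul]
      _ ≤ Real.exp ((4 * Real.log X + 2) * (u - 1)) := by
          apply Real.exp_le_exp.2
          push_cast
          nlinarith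
      _ = Real.exp (2 * (u - 1)) * Real.exp (Real.log X * (4 * (u - 1))) := by
          rw [← Real.exp_add]
          congr 1
          ring
      _ = Real.exp (2 * (u - 1)) * X ^ (4 * (u - 1)) := by
          rw [Real.rpow_def_of_pos (by linarith)]
      _ ≤ 2 * X ^ (4 * (u - 1)) := by
          refine mul_le_mul_of_nonneg_right ?_ (by positivity)
          calc Real.exp (2 * (u - 1)) ≤ Real.exp (1 / 4) := by
                apply Real.exp_le_exp.2
                linarith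
            _ ≤ 4 / 3 := by
                have h3 : 1 - 1 / 4 ≤ Real.exp (-(1 / 4)) := by
                  have := Real.add_one_le_exp (-(1 / 4) : ℝ)
                  linarith
                rw [Real.exp_neg] at h3
                have h4 : (0 : ℝ) < Real.exp (1 / 4) := Real.exp_pos _
                have h5 : (3 / 4 : ℝ) ≤ (Real.exp (1 / 4))⁻¹ := by linarith
                rw [le_inv_comm₀ (by norm_num) h4] at h5
                linarith
            _ ≤ 2 := by norm_num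

lemma iteratedDeriv_inv_two (m : ℕ) :
    iteratedDeriv m (fun s : ℂ => (1 * s - 1)⁻¹) 2 = (-1) ^ m * m.factorial := by
  rw [iteratedDeriv_eq_iterate, iter_deriv_inv_linear_sub]
  norm_num

/-- **Estermann's inequality**, abstract form: `P(s) = (s - 1) F(s)`. -/
theorem estermann {P : ℂ → ℂ} (hP : Differentiable ℂ P) {g : ℕ → ℂ} (hg : ∀ n, 0 ≤ g n)
    (hgs : ∀ s : ℂ, 1 < s.re → LSeriesSummable g s)
    (hd : ∀ s : ℂ, 1 < s.re → deriv (fun s => P s / (s - 1)) s =
      -(LSeries g s * (P s / (s - 1))))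
    {c₀ : ℝ} (hc₀ : 0 < c₀) (h2 : (c₀ : ℂ) ≤ P 2) {B : ℝ} (hc₀B : c₀ ≤ B)
    (hB : ∀ s : ℂ, ‖s - 2‖ ≤ 3 / 2 → ‖P s‖ ≤ B)
    {β : ℝ} (hβ1 : 7 / 8 ≤ β) (hβ2 : β < 1) (hF : 0 ≤ (P (β : ℂ)).re) :
    c₀ / 4 * (1 - β) * (32 * B / c₀) ^ (-(4 * (1 - β))) ≤ (P 1).re := by
  set F : ℂ → ℂ := fun s => P s / (s - 1) with hFdef
  set K : ℂ → ℂ := dslope P 1 with hKdef
  have hKd : Differentiable ℂ K := by
    rw [← differentiableOn_univ]
    exact (Complex.differentiableOn_dslope Filter.univ_mem).2 hP.differentiableOn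
  have hKne : ∀ s : ℂ, s ≠ 1 → K s = F s - P 1 * (1 * s - 1)⁻¹ := by
    intro s hs
    have h3 : s - 1 ≠ 0 := sub_ne_zero.2 hs
    rw [hKdef, dslope_of_ne _ hs, slope_def_field, hFdef]
    simp only [one_mul]
    field_simp
  have hFan : AnalyticAt ℂ F 2 := by
    have h3 : AnalyticAt ℂ P 2 := hP.analyticAt 2
    exact h3.div (analyticAt_id.sub analyticAt_const) (by norm_num)
  have hU : IsOpen {z : ℂ | 1 < z.re} := isOpen_lt continuous_const Complex.continuous_re
  have h2U : (2 : ℂ) ∈ {z : ℂ | 1 < z.re} := by simp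
  have habs : LSeries.abscissaOfAbsConv g ≤ 1 := by
    apply LSeries.abscissaOfAbsConv_le_of_forall_lt_LSeriesSummable
    intro y hy
    exact hgs _ (by simpa using hy)
  have hF2 : (c₀ : ℂ) ≤ F 2 := by
    have : F 2 = P 2 := by
      simp only [hFdef]
      norm_num
    rw [this]
    exact h2
  have hFalt : ∀ m, 0 ≤ (-1 : ℂ) ^ m * iteratedDeriv m F 2 := by
    intro m
    refine alt (G := LSeries g) hFan ?_ ?_ ?_ ?_ m
    · apply LSeries_analyticOnNhd g
      show LSeries.abscissaOfAbsConv g < ((2 : ℂ).re : EReal)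
      refine lt_of_le_of_lt habs ?_
      simp
      norm_cast
    · filter_upwards [hU.mem_nhds h2U] with s hs
      exact hd s hs
    · exact le_trans (Complex.zero_le_real.2 hc₀.le) hF2
    · intro j
      have := LSeries.iteratedDeriv_alternating (a := g) (fun n => hg n)
        (x := 2) (by
          refine lt_of_le_of_lt habs ?_
          norm_cast) j
      simpa using this
  have hKit : ∀ m, iteratedDeriv m K 2 = iteratedDeriv m F 2 - P 1 * ((-1) ^ m * m.factorial) := by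
    intro m
    have h1 : K =ᶠ[𝓝 (2 : ℂ)] fun s => F s - P 1 * (1 * s - 1)⁻¹ := by
      have : {z : ℂ | z ≠ 1} ∈ 𝓝 (2 : ℂ) := isOpen_ne.mem_nhds (by norm_num)
      filter_upwards [this] with s hs
      exact hKne s hs
    rw [h1.iteratedDeriv_eq m]
    have h2 : ContDiffAt ℂ m (fun s : ℂ => (1 * s - 1)⁻¹) 2 := by
      apply ContDiffAt.inv
      · fun_prop
      · norm_num
    rw [iteratedDeriv_fun_sub (hFan.contDiffAt) (contDiffAt_const.mul h2)]
    congr 1
    have h3 := iteratedDeriv_const_mul_field (n := m) (x := (2 : ℂ)) (P 1)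
      (fun s : ℂ => (1 * s - 1)⁻¹)
    rw [h3, iteratedDeriv_inv_two]
  have hKsph : ∀ s ∈ Metric.sphere (2 : ℂ) (3 / 2), ‖K s‖ ≤ 4 * B := by
    intro s hs
    rw [mem_sphere_iff_norm] at hs
    have h3 : 1 / 2 ≤ ‖s - 1‖ := by
      have h4 : ‖s - 2‖ ≤ ‖s - 1‖ + ‖(1 : ℂ)‖ := by
        have e : s - 2 = (s - 1) - 1 := by ring
        rw [e]
        exact norm_sub_le _ _
      rw [hs, norm_one] at h4
      linarith
    have hne : s ≠ 1 := by
      intro h
      rw [h] at h3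
      simp at h3
      linarith
    have hne' : s - 1 ≠ 0 := sub_ne_zero.2 hne
    have e1 : K s = (P s - P 1) / (s - 1) := by
      rw [hKdef, dslope_of_ne _ hne, slope_def_field]
    have h4 := hB s hs.le
    have h5 := hB 1 (by norm_num)
    rw [e1, norm_div, div_le_iff₀ (by linarith)]
    calc ‖P s - P 1‖ ≤ ‖P s‖ + ‖P 1‖ := norm_sub_le _ _
      _ ≤ 2 * B := by linarith
      _ ≤ 4 * B * ‖s - 1‖ := by
          have hBpos : 0 < B := by linarith
          nlinarith
  set u : ℝ := 2 - β with hu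
  have hu1 : 1 < u := by rw [hu]; linarith
  have hu2 : u ≤ 9 / 8 := by rw [hu]; linarith
  have hBpos : 0 < B := by linarith
  set X : ℝ := 32 * B / c₀ with hX
  have hX1 : 1 ≤ X := by
    rw [hX, le_div_iff₀ hc₀]
    linarith
  have hX0 : 0 < X := by linarith
  obtain ⟨M, hM0, hM1, hM2⟩ := choose_M hX1 hu1 hu2
  set κ : ℕ → ℝ := fun m => ((-1) ^ m * iteratedDeriv m K 2 / (m.factorial : ℂ)).re with hκ
  set b : ℕ → ℝ := fun m => ((-1) ^ m * iteratedDeriv m F 2 / (m.factorial : ℂ)).re with hb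
  have hsq : ∀ m : ℕ, ((-1 : ℂ) ^ m) * (-1) ^ m = 1 := by
    intro m
    rw [← mul_pow]; norm_num
  have e1 : ∀ m, κ m = b m - (P 1).re := by
    intro m
    simp only [hκ, hb]
    rw [hKit, ← Complex.sub_re]
    congr 1
    have hf : (m.factorial : ℂ) ≠ 0 := by exact_mod_cast m.factorial_ne_zero
    field_simp
    have := hsq m
    linear_combination (-(P 1) * (m.factorial : ℂ)) * this
  have e2 : ∀ m, 0 ≤ b m := by
    intro m
    simp only [hb]
    have h3 := hFalt m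
    have h4 : ((-1 : ℂ) ^ m * iteratedDeriv m F 2 / (m.factorial : ℂ)).re =
        ((-1 : ℂ) ^ m * iteratedDeriv m F 2).re / (m.factorial : ℝ) := by
      rw [← Complex.ofReal_natCast, Complex.div_ofReal_re]
    rw [h4]
    have h5 : 0 ≤ ((-1 : ℂ) ^ m * iteratedDeriv m F 2).re := (Complex.nonneg_iff.1 h3).1
    positivity
  have e3 : c₀ ≤ b 0 := by
    have h4 := (Complex.le_def.1 hF2).1
    simp only [hb]
    simpa using h4
  have e4 : ∀ m, |κ m| ≤ (4 * B) * (2 / 3) ^ m := by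
    intro m
    simp only [hκ]
    refine (Complex.abs_re_le_norm _).trans ?_
    rw [norm_div, norm_mul, norm_pow, norm_neg, norm_one, one_pow, one_mul, Complex.norm_natCast]
    have h3 := Complex.norm_iteratedDeriv_le_of_forall_mem_sphere_norm_le (c := (2 : ℂ))
      (R := 3 / 2) (C := 4 * B) (f := K) m (by norm_num) hKd.diffContOnCl hKsph
    have hf : (0 : ℝ) < (m.factorial : ℝ) := by exact_mod_cast m.factorial_pos
    rw [div_le_iff₀ hf]
    calc ‖iteratedDeriv m K 2‖ ≤ m.factorial * (4 * B) / (3 / 2) ^ m := h3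
      _ = (4 * B) * (2 / 3) ^ m * m.factorial := by
          have : (2 / 3 : ℝ) ^ m = ((3 / 2 : ℝ) ^ m)⁻¹ := by rw [← inv_pow]; norm_num
          rw [this]
          ring
  have e5 : HasSum (fun m => κ m * u ^ m) (K (β : ℂ)).re := by
    have h3 := Complex.hasSum_taylorSeries_of_entire hKd 2 (β : ℂ)
    have h4 := Complex.hasSum_re h3
    convert h4 using 2 with m
    simp only [hκ, smul_eq_mul]
    have h5 : ((β : ℂ) - 2) ^ m = (-1) ^ m * ((u ^ m : ℝ) : ℂ) := by
      have : (β : ℂ) - 2 = (-1) * ((u : ℝ) : ℂ) := by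
        rw [hu]; push_cast; ring
      rw [this, mul_pow]
      push_cast
      rfl
    rw [h5]
    have h6 : (m.factorial : ℂ)⁻¹ * ((-1) ^ m * ((u ^ m : ℝ) : ℂ) *
        iteratedDeriv m K 2) = ((u ^ m : ℝ) : ℂ) *
        ((-1) ^ m * iteratedDeriv m K 2 / (m.factorial : ℂ)) := by
      rw [div_eq_mul_inv]; ring
    rw [h6, Complex.re_ofReal_mul]
    ring
  have e6 : (K (β : ℂ)).re ≤ (P 1).re / (u - 1) := by
    have hne : (β : ℂ) ≠ 1 := by
      intro h
      have : β = 1 := by exact_mod_cast h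
      linarith
    rw [hKne _ hne]
    have h5 : u - 1 ≠ 0 := by linarith
    have h5' : 0 < u - 1 := by linarith
    have h6 : (β : ℂ) - 1 = -((u - 1 : ℝ) : ℂ) := by rw [hu]; push_cast; ring
    have h3 : (1 * (β : ℂ) - 1)⁻¹ = (((-(1 / (u - 1))) : ℝ) : ℂ) := by
      rw [one_mul, h6, inv_neg]
      push_cast
      rw [one_div]
    have h7 : F (β : ℂ) = P (β : ℂ) * (((-(1 / (u - 1))) : ℝ) : ℂ) := by
      simp only [hFdef]
      rw [← h3, one_mul, div_eq_mul_inv]
    rw [h3, h7, Complex.sub_re, Complex.re_mul_ofReal, Complex.re_mul_ofReal]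
    have e7 : (P 1).re * -(1 / (u - 1)) = - ((P 1).re / (u - 1)) := by ring
    have e8 : (P (β : ℂ)).re * -(1 / (u - 1)) ≤ 0 := by
      have : 0 ≤ (P (β : ℂ)).re * (1 / (u - 1)) := mul_nonneg hF (by positivity)
      linarith
    rw [e7]
    linarith
  have h3 := key_real κ b (P 1).re (4 * B) u _ c₀ hc₀ e1 e2 e3 e4 hu1 hu2 e5 e6 M hM0 (by
    refine le_trans (le_of_eq ?_) hM1
    rw [hX]
    ring)
  have hu0 : 0 < u := by linarith
  have huM : 0 < u ^ M := by positivity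
  have hlam : 0 < (P 1).re := by
    by_contra hneg
    push Not at hneg
    have h4 : (P 1).re * u ^ M ≤ 0 := mul_nonpos_of_nonpos_of_nonneg hneg huM.le
    have h5 : 0 < c₀ / 2 * (u - 1) := mul_pos (by positivity) (by linarith)
    linarith
  have h4 : c₀ / 2 * (u - 1) ≤ (P 1).re * (2 * X ^ (4 * (u - 1))) :=
    h3.trans (mul_le_mul_of_nonneg_left hM2 hlam.le)
  have h5 : 1 - β = u - 1 := by rw [hu]; ring
  rw [h5, Real.rpow_neg hX0.le]
  have hpos : 0 < X ^ (4 * (u - 1)) := Real.rpow_pos_of_pos hX0 _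
  rw [← div_eq_mul_inv, div_le_iff₀ hpos]
  linarith

end Pool.Agent.L7h50.SI
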