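import Pool.Agent.L7h78.RP.StH
import Pool.Agent.Y772.HG.Tot
import Pool.Agent.Y773.HG.Ent

/-! # Real characters of the norm: positivity, reality, two-sided bounds -/

set_option autoImplicit false
set_option linter.unusedSectionVars false

open NumberField Complex Filter Topology IsDedekindDomain

namespace Pool.Agent.Y773.G.R50

open Pool.Agent.Y773.G.R78
open Pool.Agent.Y773 (LI cc tw)
open Pool.Agent.H921R2.TatePole (kL kL_exp kL_log nm R R_le below deg deg_two_bound W Lam w_nonneg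
  w_summable bddmul_summable W_sub_Lam_bdd CK nm_eq hc R_eq_hc W_nonneg)

/-- reality on the real line, by the identity theorem -/
lemma real_ext {F : ℂ → ℂ} (hF : Differentiable ℂ F)
    (h : ∀ s : ℂ, 1 < s.re → F ((starRingEnd ℂ) s) = (starRingEnd ℂ) (F s)) :
    ∀ x : ℝ, (F x).im = 0 := by
  have hG : Differentiable ℂ (fun s : ℂ => (starRingEnd ℂ) (F ((starRingEnd ℂ) s))) := by
    intro s
    have := (hF ((starRingEnd ℂ) s)).conj_conj
    simpa [Function.comp_def] using this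
  have h1 : AnalyticOnNhd ℂ F Set.univ := fun z _ => hF.analyticAt z
  have h2 : AnalyticOnNhd ℂ (fun s : ℂ => (starRingEnd ℂ) (F ((starRingEnd ℂ) s))) Set.univ :=
    fun z _ => hG.analyticAt z
  have h3 : F =ᶠ[𝓝 (2 : ℂ)] fun s : ℂ => (starRingEnd ℂ) (F ((starRingEnd ℂ) s)) := by
    have h4 : {s : ℂ | 1 < s.re} ∈ 𝓝 (2 : ℂ) :=
      (isOpen_lt continuous_const continuous_re).mem_nhds (by simp)
    filter_upwards [h4] with s hs
    rw [h s hs, Complex.conj_conj]
  have h5 := h1.eq_of_eventuallyEq h2 h3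
  intro x
  have h6 := congrFun h5 (x : ℂ)
  simp only [Complex.conj_ofReal] at h6
  exact Complex.conj_eq_iff_im.mp h6.symm

section
variable {K : Type} [Field K] [NumberField K]

lemma LI_conj {η : Ideal (𝓞 K) →*₀ ℂ} (hr : ∀ 𝔞, (η 𝔞).im = 0) (s : ℂ) :
    LI η ((starRingEnd ℂ) s) = (starRingEnd ℂ) (LI η s) := by
  unfold LI
  rw [Complex.conj_tsum]
  refine tsum_congr fun 𝔞 => ?_
  have h1 : (starRingEnd ℂ) (η 𝔞) = η 𝔞 := Complex.conj_eq_iff_im.mpr (hr 𝔞)
  have h2 : ((Ideal.absNorm 𝔞 : ℕ) : ℂ).arg ≠ Real.pi := by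
    rw [Complex.natCast_arg]
    exact Real.pi_ne_zero.symm
  rw [map_mul, h1]
  congr 1
  have h3 := Complex.cpow_conj ((Ideal.absNorm 𝔞 : ℕ) : ℂ) (-s) h2
  rw [Complex.conj_natCast, map_neg] at h3
  exact h3

/-- positivity to the right of `1` -/
lemma LI_pos {η : Ideal (𝓞 K) →*₀ ℂ} (hη : ∀ 𝔞, ‖η 𝔞‖ ≤ 1) (hr : ∀ 𝔞, (η 𝔞).im = 0) {x : ℝ}
    (hx : 1 < x) : 0 < (LI η (x : ℂ)).re ∧ (LI η (x : ℂ)).im = 0 := by
  have hs : (1 : ℝ) < ((x : ℂ)).re := by rwa [Complex.ofReal_re]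
  have him : (LI η (x : ℂ)).im = 0 := by
    have := LI_conj hr (x : ℂ)
    rw [Complex.conj_ofReal] at this
    exact Complex.conj_eq_iff_im.mp this.symm
  refine ⟨?_, him⟩
  have h1 := Pool.Agent.Y772.DK.LI_eq_exp η hη hs
  have h2 : (Pool.Agent.Y772.DK.LA (Pool.Agent.Y772.DK.ee η) (x : ℂ)).im = 0 := by
    have h3 : (starRingEnd ℂ) (Pool.Agent.Y772.DK.LA (Pool.Agent.Y772.DK.ee η) (x : ℂ)) =
        Pool.Agent.Y772.DK.LA (Pool.Agent.Y772.DK.ee η) (x : ℂ) := by
      unfold Pool.Agent.Y772.DK.LA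
      rw [Complex.conj_tsum]
      refine tsum_congr fun 𝔞 => ?_
      have h2 : ((Ideal.absNorm 𝔞 : ℕ) : ℂ).arg ≠ Real.pi := by
        rw [Complex.natCast_arg]
        exact Real.pi_ne_zero.symm
      rw [map_mul]
      congr 1
      · unfold Pool.Agent.Y772.DK.ee
        rw [map_mul, Complex.conj_ofReal, Complex.conj_eq_iff_im.mpr (hr 𝔞)]
      · have h3 := Complex.cpow_conj ((Ideal.absNorm 𝔞 : ℕ) : ℂ) (-(x : ℂ)) h2
        rw [Complex.conj_natCast, map_neg, Complex.conj_ofReal] at h3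
        exact h3.symm
    exact Complex.conj_eq_iff_im.mp h3
  have h4 : Pool.Agent.Y772.DK.LA (Pool.Agent.Y772.DK.ee η) (x : ℂ) =
      (((Pool.Agent.Y772.DK.LA (Pool.Agent.Y772.DK.ee η) (x : ℂ)).re : ℝ) : ℂ) := by
    apply Complex.ext
    · simp
    · simpa using h2
  rw [h1, h4, ← Complex.ofReal_exp, Complex.ofReal_re]
  exact Real.exp_pos _

/-- from the L-function to the primes of degree one, two-sided -/
lemma sum_primes_abs (K : Type) [Field K] [NumberField K] : ∃ C : ℝ, 0 ≤ C ∧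
    ∀ η : Ideal (𝓞 K) →*₀ ℂ, (∀ 𝔞, ‖η 𝔞‖ ≤ 1) → ∀ f : ℕ → ℝ,
    (∀ (p : Nat.Primes) (𝔭 : Ideal (𝓞 K)), Ideal.absNorm 𝔭 = (p : ℕ) → η 𝔭 = (f p : ℂ)) →
    ∀ x : ℝ, 1 < x →
      |∑' p : Nat.Primes, ((R K p : ℝ) * f p) * Pool.Agent.H921R2.TatePole.w x p -
        Real.log ‖LI η (x : ℂ)‖| ≤ C := by
  classical
  refine ⟨|(Fintype.card Unit : ℝ) * CK K +
    1 * (Module.finrank ℚ K : ℝ) * Pool.Agent.H921R2.TatePole.C0|, abs_nonneg _,
    fun η hη f hf x hx => ?_⟩
  have hs : (1 : ℝ) < ((x : ℂ)).re := by rwa [Complex.ofReal_re]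
  rw [LI_eq_kL hη hs]
  obtain ⟨h0, h1⟩ := kL_log (K := K) (J := Unit) (c := fun v _ => η v.asIdeal)
    (fun v _ => hη v.asIdeal) hx
  have h2 := deg_two_bound (K := K) hx (g := fun v => (η v.asIdeal).re) (C := 1)
    (fun v => (Complex.abs_re_le_norm _).trans (hη _))
  have h3 : ∀ p : Nat.Primes,
      (∑ v : {v : HeightOneSpectrum (𝓞 K) // below v = p},
        if deg v.1 = 1 then (η v.1.asIdeal).re else 0) = (R K p : ℝ) * f p := by
    intro p
    unfold R
    rw [Finset.card_filter]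
    push_cast
    rw [Finset.sum_mul]
    refine Finset.sum_congr rfl fun v _ => ?_
    split_ifs with hv
    · rw [one_mul]
      have h4 : Ideal.absNorm v.1.asIdeal = (p : ℕ) := by
        have h5 := (nm_eq v.1).1
        rw [hv, pow_one, v.2] at h5
        exact h5
      rw [hf p _ h4, Complex.ofReal_re]
    · rw [zero_mul]
  simp_rw [h3] at h2
  simp only [Finset.univ_unique, Finset.sum_singleton] at h1
  refine le_trans ?_ (le_abs_self _)
  rw [abs_le] at h1 h2 ⊢
  constructor <;> linarith [h1.1, h2.1, h1.2, h2.2]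

/-- trivial lower bound -/
lemma log_LI_ge (K : Type) [Field K] [NumberField K] : ∃ C : ℝ, 0 ≤ C ∧
    ∀ η : Ideal (𝓞 K) →*₀ ℂ, (∀ 𝔞, ‖η 𝔞‖ ≤ 1) → ∀ f : ℕ → ℝ, (∀ p : Nat.Primes, |f p| ≤ 1) →
    (∀ (p : Nat.Primes) (𝔭 : Ideal (𝓞 K)), Ideal.absNorm 𝔭 = (p : ℕ) → η 𝔭 = (f p : ℂ)) →
    ∀ x : ℝ, 1 < x → x ≤ 2 →
      -((Module.finrank ℚ K : ℝ) * Real.log (1 / (x - 1))) - C ≤ Real.log ‖LI η (x : ℂ)‖ := by
  obtain ⟨C1, hC1, h⟩ := sum_primes_abs K
  obtain ⟨CW, hCW⟩ := W_sub_Lam_bdd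
  obtain ⟨u, hu1, hu⟩ := mem_nhdsGT_iff_exists_Ioo_subset.1 hCW
  simp only [Set.mem_Ioi] at hu1
  set n : ℝ := (Module.finrank ℚ K : ℝ) with hn
  have hn0 : 0 ≤ n := Nat.cast_nonneg _
  set v : ℝ := (1 + u) / 2 with hv
  have hv1 : 1 < v := by rw [hv]; linarith
  have hvu : v < u := by rw [hv]; linarith
  refine ⟨C1 + n * (|CW| + W v), by have := W_nonneg v; positivity, fun η hη f hf hηf x hx hx2 => ?_⟩
  have h1 := h η hη f hηf x hx
  have hW : W x ≤ Real.log (1 / (x - 1)) + (|CW| + W v) := by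
    have hWv := W_nonneg v
    have hCa := abs_nonneg CW
    have hl : 0 ≤ Real.log (1 / (x - 1)) := by
      refine Real.log_nonneg ?_
      rw [le_div_iff₀ (by linarith)]
      linarith
    by_cases hxu : x < u
    · have h2 := hu ⟨hx, hxu⟩
      simp only [Set.mem_ofPred_eq] at h2
      rw [abs_le] at h2
      have h3 : Lam x = Real.log (1 / (x - 1)) := rfl
      have := le_abs_self CW
      linarith [h2.2]
    · push Not at hxu
      have h3 := W_anti hv1 (hvu.le.trans hxu)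
      linarith
  have h2 : -(n * W x) ≤ ∑' p : Nat.Primes, ((R K p : ℝ) * f p) *
      Pool.Agent.H921R2.TatePole.w x p := by
    have hb : ∀ p : Nat.Primes, |(R K p : ℝ) * f p| ≤ n := by
      intro p
      rw [abs_mul, Nat.abs_cast]
      have h4 : (R K p : ℝ) ≤ n := by rw [hn]; exact_mod_cast R_le (K := K) p
      calc _ ≤ n * 1 := mul_le_mul h4 (hf p) (abs_nonneg _) hn0
        _ = n := mul_one _
    have hfsum := bddmul_summable hx hb
    have e1 : -(n * W x) = ∑' p : Nat.Primes, (-n) * Pool.Agent.H921R2.TatePole.w x p := by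
      rw [tsum_mul_left]
      change -(n * ∑' p : Nat.Primes, Pool.Agent.H921R2.TatePole.w x p) = _
      ring
    rw [e1]
    refine Summable.tsum_le_tsum (fun p => ?_) ((w_summable hx).mul_left _) hfsum
    exact mul_le_mul_of_nonneg_right (abs_le.1 (hb p)).1 (w_nonneg x p)
  have h3 := mul_le_mul_of_nonneg_left hW hn0
  rw [abs_le] at h1
  linarith [h1.1, h1.2]

/-- the pole of the principal characters -/
lemma principal_pole (K : Type) [Field K] [NumberField K] {q : ℕ} (hq : 0 < q) :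
    ∃ c : ℝ, 0 < c ∧ ∀ᶠ x : ℝ in 𝓝[>] 1,
      c ≤ (x - 1) * ‖LI (tw (tr K) (1 : DirichletCharacter ℂ q)) (x : ℂ)‖ := by
  classical
  obtain ⟨C1, hC1, h⟩ := sum_primes_abs K
  obtain ⟨CW, hCW⟩ := W_sub_Lam_bdd
  obtain ⟨CR, hCR⟩ := Pool.Agent.H921R2.TatePole.sum_R_bdd (K := K)
  set n : ℝ := (Module.finrank ℚ K : ℝ) with hn
  have hn0 : 0 ≤ n := Nat.cast_nonneg _
  set η := tw (tr K) (1 : DirichletCharacter ℂ q) with hη
  have hη1 : ∀ 𝔞, ‖η 𝔞‖ ≤ 1 := by
    intro 𝔞
    by_cases h0 : 𝔞 = 0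
    · rw [h0, map_zero, norm_zero]; exact zero_le_one
    · rw [hη, tw_ne h0]; exact DirichletCharacter.norm_le_one _ _
  set f : ℕ → ℝ := fun p => if Nat.Coprime p q then 1 else 0 with hf
  have hηf : ∀ (p : Nat.Primes) (𝔭 : Ideal (𝓞 K)), Ideal.absNorm 𝔭 = (p : ℕ) →
      η 𝔭 = (f p : ℂ) := by
    intro p 𝔭 hp
    have h0 : 𝔭 ≠ 0 := by
      rintro rfl
      rw [Ideal.zero_eq_bot, Ideal.absNorm_bot] at hp
      exact p.2.ne_zero hp.symm
    rw [hη, tw_ne h0, hp, hf]
    simp only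
    split_ifs with hc
    · rw [MulChar.one_apply ((ZMod.isUnit_iff_coprime _ _).2 hc)]
      simp
    · rw [MulChar.map_nonunit _ (fun h => hc ((ZMod.isUnit_iff_coprime _ _).1 h))]
      simp
  refine ⟨Real.exp (-(C1 + |CW| + |CR| + n * q)), Real.exp_pos _, ?_⟩
  filter_upwards [hCW, hCR, self_mem_nhdsWithin] with x hxW hxR hx
  have hx : 1 < x := hx
  have h1 := h η hη1 f hηf x hx
  have hp := LI_pos hη1 (x := x) (fun 𝔞 => by
    by_cases h0 : 𝔞 = 0
    · rw [h0, map_zero]; rfl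
    · rw [hη, tw_ne h0]
      by_cases hu : IsUnit ((Ideal.absNorm 𝔞 : ℕ) : ZMod q)
      · rw [MulChar.one_apply hu]; rfl
      · rw [MulChar.map_nonunit _ hu]; rfl) hx
  have hpos : 0 < ‖LI η (x : ℂ)‖ := by
    rw [norm_pos_iff]
    intro h0
    rw [h0] at hp
    exact lt_irrefl _ hp.1
  -- the sum over the primes
  have hRs : Summable (fun p : Nat.Primes => (R K p : ℝ) * Pool.Agent.H921R2.TatePole.w x p) :=
    bddmul_summable hx (C := n) (fun p => by
      rw [Nat.abs_cast, hn]; exact_mod_cast R_le (K := K) p)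
  have hws := w_summable hx
  have hRfb : ∀ p : Nat.Primes, |(R K p : ℝ) * f p| ≤ n := by
    intro p
    rw [abs_mul, Nat.abs_cast]
    have h4 : (R K p : ℝ) ≤ n := by rw [hn]; exact_mod_cast R_le (K := K) p
    have h5 : |f p| ≤ 1 := by
      rw [hf]; simp only; split_ifs <;> simp
    calc _ ≤ n * 1 := mul_le_mul h4 h5 (abs_nonneg _) hn0
      _ = n := mul_one _
  have hRfs := bddmul_summable hx hRfb
  have h2 : ∑' p : Nat.Primes, (R K p : ℝ) * Pool.Agent.H921R2.TatePole.w x p - n * q ≤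
      ∑' p : Nat.Primes, ((R K p : ℝ) * f p) * Pool.Agent.H921R2.TatePole.w x p := by
    set D : Finset Nat.Primes := Finset.subtype Nat.Prime q.primeFactors with hD
    have h3 : ∀ p ∉ D, (R K p : ℝ) * Pool.Agent.H921R2.TatePole.w x p -
        ((R K p : ℝ) * f p) * Pool.Agent.H921R2.TatePole.w x p = 0 := by
      intro p hp
      have hcop : Nat.Coprime p q := by
        rw [Nat.Prime.coprime_iff_not_dvd p.2]
        intro hd
        apply hp
        rw [hD]
        refine Finset.mem_subtype.2 ?_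
        rw [Nat.mem_primeFactors]
        exact ⟨p.2, hd, hq.ne'⟩
      rw [hf]
      simp only
      rw [if_pos hcop, mul_one, sub_self]
    have h4 : ∑' p : Nat.Primes, (R K p : ℝ) * Pool.Agent.H921R2.TatePole.w x p -
        ∑' p : Nat.Primes, ((R K p : ℝ) * f p) * Pool.Agent.H921R2.TatePole.w x p =
        ∑ p ∈ D, ((R K p : ℝ) * Pool.Agent.H921R2.TatePole.w x p -
        ((R K p : ℝ) * f p) * Pool.Agent.H921R2.TatePole.w x p) := by
      rw [← Summable.tsum_sub hRs hRfs, tsum_eq_sum h3]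
    have h5 : ∑ p ∈ D, ((R K p : ℝ) * Pool.Agent.H921R2.TatePole.w x p -
        ((R K p : ℝ) * f p) * Pool.Agent.H921R2.TatePole.w x p) ≤ n * q := by
      have h6 : ∀ p ∈ D, ((R K p : ℝ) * Pool.Agent.H921R2.TatePole.w x p -
        ((R K p : ℝ) * f p) * Pool.Agent.H921R2.TatePole.w x p) ≤ n := by
        intro p _
        have h7 : (R K p : ℝ) ≤ n := by rw [hn]; exact_mod_cast R_le (K := K) p
        have h8 : Pool.Agent.H921R2.TatePole.w x p ≤ 1 := by
          unfold Pool.Agent.H921R2.TatePole.w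
          refine Real.rpow_le_one_of_one_le_of_nonpos ?_ (by linarith)
          exact_mod_cast p.2.one_lt.le
        have h9 := w_nonneg x p
        have h10 : 0 ≤ f p := by rw [hf]; simp only; split_ifs <;> norm_num
        have h11 : (0 : ℝ) ≤ R K p := Nat.cast_nonneg _
        have h12 : 0 ≤ ((R K p : ℝ) * f p) * Pool.Agent.H921R2.TatePole.w x p := by positivity
        have h13 : (R K p : ℝ) * Pool.Agent.H921R2.TatePole.w x p ≤ n * 1 :=
          mul_le_mul h7 h8 h9 hn0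
        linarith
      have h7 := Finset.sum_le_card_nsmul _ _ _ h6
      rw [nsmul_eq_mul] at h7
      have h8 : (D.card : ℝ) ≤ q := by
        have h9 : D.card ≤ q.primeFactors.card :=
          le_trans (Finset.card_subtype Nat.Prime q.primeFactors).le (Finset.card_filter_le _ _)
        have h10 : q.primeFactors.card ≤ q := by
          calc q.primeFactors.card ≤ (Finset.Icc 1 q).card := by
                refine Finset.card_le_card fun p hp => ?_
                rw [Nat.mem_primeFactors] at hp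
                rw [Finset.mem_Icc]
                exact ⟨hp.1.one_lt.le, Nat.le_of_dvd hq hp.2.1⟩
            _ = q := by rw [Nat.card_Icc]; omega
        exact_mod_cast h9.trans h10
      nlinarith
    linarith
  have h3 : W x + ∑' p : Nat.Primes, ((R K p : ℝ) - 1) * Pool.Agent.H921R2.TatePole.w x p =
      ∑' p : Nat.Primes, (R K p : ℝ) * Pool.Agent.H921R2.TatePole.w x p := by
    have e1 : ∑' p : Nat.Primes, ((R K p : ℝ) - 1) * Pool.Agent.H921R2.TatePole.w x p =
        ∑' p : Nat.Primes, (R K p : ℝ) * Pool.Agent.H921R2.TatePole.w x p -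
          ∑' p : Nat.Primes, Pool.Agent.H921R2.TatePole.w x p := by
      rw [← Summable.tsum_sub hRs hws]
      refine tsum_congr fun p => ?_
      ring
    rw [e1]
    change ∑' p : Nat.Primes, Pool.Agent.H921R2.TatePole.w x p + _ = _
    ring
  have hLam : Lam x = Real.log (1 / (x - 1)) := rfl
  have hx0 : 0 < x - 1 := by linarith
  have hlog : Real.log (1 / (x - 1)) = -Real.log (x - 1) := by rw [one_div, Real.log_inv]
  have h4 : -(C1 + |CW| + |CR| + n * q) ≤ Real.log ((x - 1) * ‖LI η (x : ℂ)‖) := by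
    rw [Real.log_mul hx0.ne' hpos.ne']
    have a1 := le_abs_self CW
    have a2 := le_abs_self CR
    rw [abs_le] at h1 hxW hxR
    linarith [h1.1, h1.2, hxW.1, hxR.1]
  rw [Real.le_log_iff_exp_le (mul_pos hx0 hpos)] at h4
  exact h4

end

end Pool.Agent.Y773.G.R50
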