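import Pool.Agent.L7h78.RP.Ana
import Pool.Agent.Y772.HG.Pole

/-! # Uniform bounds for the L-functions of ray class characters in vertical strips

The proof is an adaptation of `norm_LI_log` (helper78, `Pool/Agent/L7h78/RP/Ana.lean`). -/

set_option autoImplicit false
set_option linter.unusedSectionVars false

open NumberField Complex Filter Topology Set MeasureTheory

namespace Pool.Agent.Y773.G.R50

open Pool.Agent.Y773.G.R78
open Pool.Agent.Y773 (LI)
open Pool.Agent.H921R2.TatePole (ZK)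

lemma inv_gam : ∃ C : ℝ, 1 ≤ C ∧ ∀ s : ℂ, -1 ≤ s.re → s.re ≤ 3 → |s.im| ≤ 2 →
    ‖(Complex.Gammaℝ s)⁻¹‖ ≤ C := by
  have hK : IsCompact (Icc (-1 : ℝ) 3 ×ℂ Icc (-2 : ℝ) 2) := isCompact_Icc.reProdIm isCompact_Icc
  obtain ⟨C, hC⟩ := hK.exists_bound_of_continuousOn
    (f := fun s : ℂ => (Complex.Gammaℝ s)⁻¹) Complex.differentiable_Gammaℝ_inv.continuous.continuousOn
  refine ⟨max C 1, le_max_right _ _, fun s h1 h2 h3 => (hC s ?_).trans (le_max_left _ _)⟩
  rw [Complex.mem_reProdIm]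
  exact ⟨⟨h1, h2⟩, abs_le.1 h3⟩

/-- **Uniform bound in strips** -/
theorem strip (K : Type) [Field K] [NumberField K] : ∃ C A : ℝ, 0 < C ∧ 0 ≤ A ∧
    ∀ (𝔪 : Ideal (𝓞 K)) (e : InfinitePlace K → ℕ) (η : Ideal (𝓞 K) →*₀ ℂ), IsModChar 𝔪 e η →
      (∃ 𝔞, IsCoprime 𝔞 𝔪 ∧ η 𝔞 ≠ 1) → ∃ F : ℂ → ℂ, Differentiable ℂ F ∧
        (∀ s : ℂ, 1 < s.re → F s = LI η s) ∧
        ∀ δ : ℝ, 0 < δ → δ ≤ 1 → ∀ s : ℂ, -δ ≤ s.re → s.re ≤ 1 + δ → |s.im| ≤ 2 →
          ‖F s‖ ≤ C / δ * Real.exp (A * (1 + Real.log (Ideal.absNorm 𝔪)) * (1 + δ - s.re)) := by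
  classical
  obtain ⟨V, hV, hfe⟩ := fam_fe K
  obtain ⟨Cm, hCm, hmel⟩ := mellin_Ftot K
  obtain ⟨C1, hC1, hg1⟩ := gam_upper
  obtain ⟨CG, hCG, hg3⟩ := inv_gam
  obtain ⟨C2, hC2, hG⟩ := norm_mellin_Gtot K
  obtain ⟨C3, hC3, hZ⟩ := ZK_le K
  set n := Module.finrank ℚ K with hn
  set k := Fintype.card (K →+* ℂ) with hk
  set C4 : ℝ := (Cm * C1 ^ k + V⁻¹ * C2) * C3 with hC4
  have hC4p : 0 < C4 := by positivity
  obtain ⟨P, H, hlogm'⟩ := log_mm K
  have hlogP : 0 ≤ Real.log P := Real.log_natCast_nonneg _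
  refine ⟨Cm⁻¹ * (C4 * CG ^ k), 3 * n * (Real.log P + H), by positivity, by positivity,
    fun 𝔪 e η h hnt => ?_⟩
  have hm𝔪0 : 0 < Ideal.absNorm 𝔪 := Nat.pos_of_ne_zero fun h1 =>
    h.ne_bot (Ideal.absNorm_eq_zero_iff.mp h1)
  have hlog𝔪 : 0 ≤ Real.log (Ideal.absNorm 𝔪) := Real.log_natCast_nonneg _
  have hN : ∀ c, Nice e (Ps η e (rp K c)) := fun c => h.nice (rp_ne_bot c)
  obtain ⟨m, hm0, hper, hlogm, hzero⟩ : ∃ m : ℕ, 0 < m ∧
      (∀ c (x z : 𝓞 K), Ps η e (rp K c) (x + m * z) = Ps η e (rp K c) x) ∧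
      Real.log m = Real.log P + H * Real.log (Ideal.absNorm 𝔪) ∧
      G00 e * (∑ c, (Ideal.absNorm (rp K c) : ℂ) * FT (Dd K) m (Ps η e (rp K c)) 0) = 0 :=
    ⟨mm (rp K) 𝔪, mm_pos rp_ne_bot h.ne_bot, fun c => h.per_m (rp_ne_bot c) (mm_mem _ _ c),
      hlogm' 𝔪 h.ne_bot, h.const_zero hnt⟩
  set L : ℝ := Real.log m with hL
  have hL0 : 0 ≤ L := Real.log_natCast_nonneg _
  obtain ⟨h1, h2, h3⟩ := hfe (rp K) reps_rp e η hN m (Dd K) hm0
    Dd_pos Dd_mem hper hzero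
  refine ⟨fun s => (Cm : ℂ)⁻¹ * (mellin (Ftot η e (rp K)) s *
    ∏ φ : K →+* ℂ, (Complex.Gammaℝ (s + ex e φ))⁻¹),
    (h2.mul (Pool.Agent.Y772.G.differentiable_gam e)).const_mul _, fun s hs => ?_, ?_⟩
  · simp only
    rw [(hmel (rp K) reps_rp e η h.norm_le_one hN s hs).2, Finset.prod_inv_distrib]
    have h4 := Pool.Agent.Y772.G.gam_ne_zero e (K := K) (s := s) (by linarith)
    have hC' : (Cm : ℂ) ≠ 0 := by exact_mod_cast hCm.ne'
    field_simp
  intro δ hδ0 hδ1 z hz1 hz2 hz3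
  have hZδ : ZK K (1 + δ) ≤ C3 / δ := by
    have := hZ (1 + δ) (by linarith) (by linarith)
    rwa [add_sub_cancel_left] at this
  -- the auxiliary function
  set T : ℝ := 3 * n * L with hT
  have hT0 : 0 ≤ T := by positivity
  set g : ℂ → ℂ := fun s => mellin (Ftot η e (rp K)) s * Complex.exp ((T : ℂ) * (s - 1 - δ)) with hg
  have hgn : ∀ s, ‖g s‖ = ‖mellin (Ftot η e (rp K)) s‖ * Real.exp (T * (s.re - 1 - δ)) := by
    intro s
    rw [hg]
    simp only
    rw [norm_mul, Complex.norm_exp]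
    congr 2
    simp
  have hgd : Differentiable ℂ g := by
    rw [hg]
    exact h2.mul (by fun_prop)
  -- the right line
  have hright : ∀ s : ℂ, s.re = 1 + δ → ‖g s‖ ≤ C4 / δ := by
    intro s hs
    rw [hgn, hs, show (1 + δ - 1 - δ : ℝ) = 0 by ring, mul_zero, Real.exp_zero, mul_one,
      (hmel (rp K) reps_rp e η h.norm_le_one hN s (by rw [hs]; linarith)).2, norm_mul, norm_mul,
      Complex.norm_real, Real.norm_of_nonneg hCm.le]
    have hgam : ‖∏ φ : K →+* ℂ, Complex.Gammaℝ (s + ex e φ)‖ ≤ C1 ^ k := by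
      rw [norm_prod]
      have hpc : C1 ^ k = ∏ _φ : K →+* ℂ, C1 := by
        rw [Finset.prod_const, Finset.card_univ]
      rw [hpc]
      refine Finset.prod_le_prod (fun φ _ => norm_nonneg _) fun φ _ => ?_
      have he := ex_le h.sig_le φ
      have he' : ((ex e φ : ℕ) : ℝ) ≤ 1 := by exact_mod_cast he
      have he0 : (0 : ℝ) ≤ ((ex e φ : ℕ) : ℝ) := Nat.cast_nonneg _
      have hre : (s + (ex e φ : ℂ)).re = s.re + ((ex e φ : ℕ) : ℝ) := by simp
      exact hg1 _ (by rw [hre]; linarith) (by rw [hre]; linarith)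
    have hLI := norm_LI_le h.norm_le_one (s := s) (by rw [hs]; linarith)
    rw [hs] at hLI
    have hLI' := hLI.trans hZδ
    calc Cm * (‖∏ φ : K →+* ℂ, Complex.Gammaℝ (s + ex e φ)‖ * ‖LI η s‖) ≤
          Cm * (C1 ^ k * (C3 / δ)) := by
          refine mul_le_mul_of_nonneg_left ?_ hCm.le
          exact mul_le_mul hgam hLI' (norm_nonneg _) (by positivity)
      _ = (Cm * C1 ^ k) * C3 / δ := by ring
      _ ≤ C4 / δ := by
          refine div_le_div_of_nonneg_right ?_ hδ0.le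
          rw [hC4]
          refine mul_le_mul_of_nonneg_right ?_ hC3.le
          have : 0 < V⁻¹ * C2 := by positivity
          linarith
  -- the left line
  have hleft : ∀ s : ℂ, s.re = -δ → ‖g s‖ ≤ C4 / δ := by
    intro s hs
    have hre : (1 - s).re = 1 + δ := by
      rw [Complex.sub_re, Complex.one_re, hs]
      ring
    have h4 := h3 (1 - s)
    rw [sub_sub_cancel] at h4
    have hn1 : ‖((V⁻¹ : ℝ) : ℂ) * ((m : ℂ) ^ n)⁻¹ * (-I) ^ (∑ φ : K →+* ℂ, eM e φ)‖ ≤ V⁻¹ := by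
      rw [norm_mul, norm_mul, norm_pow, norm_neg, Complex.norm_I, one_pow, mul_one,
        Complex.norm_real, Real.norm_of_nonneg (inv_pos.mpr hV).le, norm_inv, norm_pow,
        Complex.norm_natCast]
      have h5 : ((m : ℝ) ^ n)⁻¹ ≤ 1 := by
        refine inv_le_one_of_one_le₀ (one_le_pow₀ ?_)
        exact_mod_cast hm0
      calc V⁻¹ * ((m : ℝ) ^ n)⁻¹ ≤ V⁻¹ * 1 := mul_le_mul_of_nonneg_left h5 (inv_pos.mpr hV).le
        _ = _ := mul_one _
    have h5 := hG e η h.norm_le_one hN m hm0 hper (1 - s) (by rw [hre]; linarith)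
      (by rw [hre]; linarith)
    rw [hre] at h5
    have hmexp : (m : ℝ) ^ (3 * n) = Real.exp T := by
      rw [hT, hL]
      have hm0' : (0 : ℝ) < m := by exact_mod_cast hm0
      rw [← Real.rpow_natCast, Real.rpow_def_of_pos hm0']
      congr 1
      push_cast
      ring
    rw [hgn, h4, norm_mul, hs]
    have h6 : ‖mellin (Gtot η e (rp K) m (Dd K)) (1 - s)‖ ≤ C2 * Real.exp T * (C3 / δ) := by
      refine h5.trans ?_
      rw [hmexp]
      exact mul_le_mul_of_nonneg_left hZδ (by positivity)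
    have h7 : Real.exp (T * (-δ - 1 - δ)) ≤ Real.exp (-T) := by
      refine Real.exp_le_exp.mpr ?_
      nlinarith
    calc _ ≤ V⁻¹ * (C2 * Real.exp T * (C3 / δ)) * Real.exp (-T) := by
          refine mul_le_mul ?_ h7 (Real.exp_pos _).le (by positivity)
          exact mul_le_mul hn1 h6 (norm_nonneg _) (by positivity)
      _ = (V⁻¹ * C2) * C3 / δ * (Real.exp T * Real.exp (-T)) := by ring
      _ = (V⁻¹ * C2) * C3 / δ := by
          rw [← Real.exp_add, add_neg_cancel, Real.exp_zero, mul_one]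
      _ ≤ C4 / δ := by
          refine div_le_div_of_nonneg_right ?_ hδ0.le
          rw [hC4]
          refine mul_le_mul_of_nonneg_right ?_ hC3.le
          have : 0 < Cm * C1 ^ k := by positivity
          linarith
  -- bounded in the strip
  obtain ⟨B, hB⟩ := mellin_bdd (h1 ((-δ : ℝ) : ℂ)) (h1 ((1 + δ : ℝ) : ℂ))
  have hgb : ∀ s : ℂ, -δ ≤ s.re → s.re ≤ 1 + δ → ‖g s‖ ≤ B := by
    intro s hs1 hs2
    rw [hgn]
    have h4 := hB s hs1 hs2
    have h5 : Real.exp (T * (s.re - 1 - δ)) ≤ 1 := by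
      refine Real.exp_le_one_iff.mpr ?_
      exact mul_nonpos_of_nonneg_of_nonpos hT0 (by linarith)
    calc _ ≤ B * 1 := mul_le_mul h4 h5 (Real.exp_pos _).le ((norm_nonneg _).trans h4)
      _ = B := mul_one B
  have hPL := PhragmenLindelof.vertical_strip (a := -δ) (b := 1 + δ) (f := g) (C := C4 / δ)
    (z := z) hgd.diffContOnCl ⟨0, by
      refine div_pos Real.pi_pos ?_
      linarith, 0, by
      refine Asymptotics.IsBigO.of_bound B ?_
      rw [Filter.eventually_inf_principal]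
      refine Filter.Eventually.of_forall fun s hs => ?_
      have h4 := hgb s hs.1.le hs.2.le
      simpa using h4⟩ hleft hright hz1 hz2
  rw [hgn] at hPL
  -- conclusion
  have hmz : ‖mellin (Ftot η e (rp K)) z‖ ≤ C4 / δ * Real.exp (T * (1 + δ - z.re)) := by
    have e1 : Real.exp (T * (z.re - 1 - δ)) * Real.exp (T * (1 + δ - z.re)) = 1 := by
      rw [← Real.exp_add, show T * (z.re - 1 - δ) + T * (1 + δ - z.re) = 0 by ring, Real.exp_zero]
    calc ‖mellin (Ftot η e (rp K)) z‖ = (‖mellin (Ftot η e (rp K)) z‖ *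
          Real.exp (T * (z.re - 1 - δ))) * Real.exp (T * (1 + δ - z.re)) := by
          rw [mul_assoc, e1, mul_one]
      _ ≤ _ := mul_le_mul_of_nonneg_right hPL (Real.exp_pos _).le
  have hgam : ‖∏ φ : K →+* ℂ, (Complex.Gammaℝ (z + ex e φ))⁻¹‖ ≤ CG ^ k := by
    rw [norm_prod]
    have hpc : CG ^ k = ∏ _φ : K →+* ℂ, CG := by
      rw [Finset.prod_const, Finset.card_univ]
    rw [hpc]
    refine Finset.prod_le_prod (fun φ _ => norm_nonneg _) fun φ _ => ?_
    have he := ex_le h.sig_le φ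
    have he' : ((ex e φ : ℕ) : ℝ) ≤ 1 := by exact_mod_cast he
    have he0 : (0 : ℝ) ≤ ((ex e φ : ℕ) : ℝ) := Nat.cast_nonneg _
    have hre : (z + (ex e φ : ℂ)).re = z.re + ((ex e φ : ℕ) : ℝ) := by simp
    have him : (z + (ex e φ : ℂ)).im = z.im := by simp
    exact hg3 _ (by rw [hre]; linarith) (by rw [hre]; linarith) (by rw [him]; exact hz3)
  have hTle : T ≤ 3 * n * (Real.log P + H) * (1 + Real.log (Ideal.absNorm 𝔪)) := by
    rw [hT, hlogm, mul_assoc (3 * (n : ℝ)) (Real.log P + H)]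
    refine mul_le_mul_of_nonneg_left ?_ (by positivity)
    have hH0 : (0 : ℝ) ≤ H := Nat.cast_nonneg _
    nlinarith [mul_nonneg hH0 hlog𝔪, mul_nonneg hlogP hlog𝔪]
  have hexp : Real.exp (T * (1 + δ - z.re)) ≤
      Real.exp (3 * n * (Real.log P + H) * (1 + Real.log (Ideal.absNorm 𝔪)) * (1 + δ - z.re)) :=
    Real.exp_le_exp.mpr (mul_le_mul_of_nonneg_right hTle (by linarith))
  simp only
  rw [norm_mul, norm_inv, Complex.norm_real, Real.norm_of_nonneg hCm.le, norm_mul]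
  calc Cm⁻¹ * (‖mellin (Ftot η e (rp K)) z‖ * ‖∏ φ : K →+* ℂ, (Complex.Gammaℝ (z + ex e φ))⁻¹‖)
      ≤ Cm⁻¹ * ((C4 / δ * Real.exp (T * (1 + δ - z.re))) * CG ^ k) := by
        refine mul_le_mul_of_nonneg_left ?_ (by positivity)
        exact mul_le_mul hmz hgam (norm_nonneg _) (by positivity)
    _ ≤ Cm⁻¹ * ((C4 / δ * Real.exp (3 * n * (Real.log P + H) *
          (1 + Real.log (Ideal.absNorm 𝔪)) * (1 + δ - z.re))) * CG ^ k) := by
        refine mul_le_mul_of_nonneg_left ?_ (by positivity)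
        refine mul_le_mul_of_nonneg_right ?_ (by positivity)
        exact mul_le_mul_of_nonneg_left hexp (by positivity)
    _ = _ := by ring

/-- polynomial bound in a disc, and small powers near `1` -/
theorem disc (K : Type) [Field K] [NumberField K] : ∃ C A : ℝ, 1 ≤ C ∧ 0 ≤ A ∧
    ∀ (𝔪 : Ideal (𝓞 K)) (e : InfinitePlace K → ℕ) (η : Ideal (𝓞 K) →*₀ ℂ), IsModChar 𝔪 e η →
      (∃ 𝔞, IsCoprime 𝔞 𝔪 ∧ η 𝔞 ≠ 1) → ∃ F : ℂ → ℂ, Differentiable ℂ F ∧
        (∀ s : ℂ, 1 < s.re → F s = LI η s) ∧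
        (∀ s : ℂ, ‖s - 2‖ ≤ 3 / 2 → ‖F s‖ ≤ C * (Ideal.absNorm 𝔪 : ℝ) ^ A) ∧
        (∀ δ : ℝ, 0 < δ → δ ≤ 1 → ∀ s : ℂ, ‖s - 1‖ ≤ δ →
          ‖F s‖ ≤ C / δ * (Ideal.absNorm 𝔪 : ℝ) ^ (A * δ)) := by
  obtain ⟨C, A, hC, hA, h⟩ := strip K
  refine ⟨C * Real.exp (2 * A) + ZK K 2 + 1, 2 * A, ?_, by positivity, fun 𝔪 e η hm hnt => ?_⟩
  · have := ZK_nonneg (K := K) 2
    have : 0 < C * Real.exp (2 * A) := by positivity
    linarith
  obtain ⟨F, hF1, hF2, hF3⟩ := h 𝔪 e η hm hnt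
  have hN0 : 0 < Ideal.absNorm 𝔪 := Nat.pos_of_ne_zero fun h1 =>
    hm.ne_bot (Ideal.absNorm_eq_zero_iff.mp h1)
  have hN1 : (1 : ℝ) ≤ Ideal.absNorm 𝔪 := by exact_mod_cast hN0
  have hN0' : (0 : ℝ) < Ideal.absNorm 𝔪 := by linarith
  have hlog : 0 ≤ Real.log (Ideal.absNorm 𝔪) := Real.log_nonneg hN1
  have hZ2 := ZK_nonneg (K := K) 2
  have hCe : 0 < C * Real.exp (2 * A) := by positivity
  refine ⟨F, hF1, hF2, fun s hs => ?_, fun δ hδ0 hδ1 s hs => ?_⟩
  · have hre := Complex.abs_re_le_norm (s - 2)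
    have him := Complex.abs_im_le_norm (s - 2)
    have e1 : (s - 2).re = s.re - 2 := by simp
    have e2 : (s - 2).im = s.im := by simp
    rw [e1] at hre
    rw [e2] at him
    have h1 := (abs_le.1 (hre.trans hs)).1
    have h2 := (abs_le.1 (hre.trans hs)).2
    have hpow : 1 ≤ (Ideal.absNorm 𝔪 : ℝ) ^ (2 * A) := Real.one_le_rpow hN1 (by positivity)
    by_cases hs2 : s.re ≤ 2
    · have h3 := hF3 1 one_pos le_rfl s (by linarith) (by linarith) (by linarith)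
      rw [div_one] at h3
      have h4 : Real.exp (A * (1 + Real.log (Ideal.absNorm 𝔪)) * (1 + 1 - s.re)) ≤
          Real.exp (2 * A) * (Ideal.absNorm 𝔪 : ℝ) ^ (2 * A) := by
        rw [Real.rpow_def_of_pos hN0', ← Real.exp_add]
        refine Real.exp_le_exp.mpr ?_
        have h5 : 0 ≤ A * (1 + Real.log (Ideal.absNorm 𝔪)) := by positivity
        have h6 : A * (1 + Real.log (Ideal.absNorm 𝔪)) * (1 + 1 - s.re) ≤
            A * (1 + Real.log (Ideal.absNorm 𝔪)) * 2 :=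
          mul_le_mul_of_nonneg_left (by linarith) h5
        linarith
      calc ‖F s‖ ≤ C * (Real.exp (2 * A) * (Ideal.absNorm 𝔪 : ℝ) ^ (2 * A)) :=
            h3.trans (mul_le_mul_of_nonneg_left h4 hC.le)
        _ = (C * Real.exp (2 * A)) * (Ideal.absNorm 𝔪 : ℝ) ^ (2 * A) := by ring
        _ ≤ _ := mul_le_mul_of_nonneg_right (by linarith) (by positivity)
    · push Not at hs2
      rw [hF2 s (by linarith)]
      have h3 := norm_LI_le hm.norm_le_one (s := s) (by linarith)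
      have h4 := ZK_anti (K := K) (x := 2) (y := s.re) (by norm_num) hs2.le
      calc ‖LI η s‖ ≤ ZK K 2 := h3.trans h4
        _ ≤ (C * Real.exp (2 * A) + ZK K 2 + 1) * 1 := by linarith
        _ ≤ _ := mul_le_mul_of_nonneg_left hpow (by linarith)
  · have hre := Complex.abs_re_le_norm (s - 1)
    have him := Complex.abs_im_le_norm (s - 1)
    have e1 : (s - 1).re = s.re - 1 := by simp
    have e2 : (s - 1).im = s.im := by simp
    rw [e1] at hre
    rw [e2] at him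
    have h1 := (abs_le.1 (hre.trans hs)).1
    have h2 := (abs_le.1 (hre.trans hs)).2
    have h3 := hF3 δ hδ0 hδ1 s (by linarith) (by linarith) (by linarith)
    have h4 : Real.exp (A * (1 + Real.log (Ideal.absNorm 𝔪)) * (1 + δ - s.re)) ≤
        Real.exp (2 * A) * (Ideal.absNorm 𝔪 : ℝ) ^ (2 * A * δ) := by
      rw [Real.rpow_def_of_pos hN0', ← Real.exp_add]
      refine Real.exp_le_exp.mpr ?_
      have h5 : 0 ≤ A * (1 + Real.log (Ideal.absNorm 𝔪)) := by positivity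
      have h6 : A * (1 + Real.log (Ideal.absNorm 𝔪)) * (1 + δ - s.re) ≤
          A * (1 + Real.log (Ideal.absNorm 𝔪)) * (2 * δ) :=
        mul_le_mul_of_nonneg_left (by linarith) h5
      have h7 : 2 * A * δ ≤ 2 * A := by nlinarith
      linarith [show A * (1 + Real.log (Ideal.absNorm 𝔪)) * (2 * δ) =
        2 * A * δ + Real.log (Ideal.absNorm 𝔪) * (2 * A * δ) by ring]
    calc ‖F s‖ ≤ C / δ * (Real.exp (2 * A) * (Ideal.absNorm 𝔪 : ℝ) ^ (2 * A * δ)) :=
          h3.trans (mul_le_mul_of_nonneg_left h4 (by positivity))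
      _ = (C * Real.exp (2 * A)) / δ * (Ideal.absNorm 𝔪 : ℝ) ^ (2 * A * δ) := by ring
      _ ≤ _ := by
        refine mul_le_mul_of_nonneg_right ?_ (by positivity)
        exact div_le_div_of_nonneg_right (by linarith) hδ0.le

end Pool.Agent.Y773.G.R50
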