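import Pool.Agent.L7h50.SI.Fam
import Pool.Agent.L7h50.SI.Strip
import Pool.Agent.L7h50.SI.Abs

/-! # The family of real characters of the norm -/

set_option autoImplicit false
set_option linter.unusedSectionVars false

open NumberField Complex Filter Topology

namespace Pool.Agent.Y773.G.R50

open Pool.Agent.Y773.G.R78
open Pool.Agent.Y773 (LI cc tw VM StDirK)
open Pool.Agent.W262.RK (Jr)
open ArithmeticFunction (vonMangoldt)
open Pool.Agent.Y772.DK (t_dirK VM_nonneg cc_mul NN NN_finite)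
open scoped ComplexOrder

/-- the characters `ψ (· / r)` -/
structure Idx (q d : ℕ) where
  ψ : DirichletCharacter ℤ q
  r : ℕ
  one_lt : 1 < r
  sqf : Squarefree r
  big : ∀ p : ℕ, p.Prime → p ∣ r → q + d + 2 < p

namespace Idx

variable {q d : ℕ}

lemma pos (i : Idx q d) : 0 < i.r := by have := i.one_lt; omega

lemma odd (i : Idx q d) : Odd i.r := by
  rw [← Nat.not_even_iff_odd]
  intro h
  have := i.big 2 Nat.prime_two (even_iff_two_dvd.mp h)
  omega

lemma cop (hq : 0 < q) (i : Idx q d) : Nat.Coprime q i.r := by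
  by_contra h
  obtain ⟨p, hp, h1, h2⟩ := Nat.Prime.not_coprime_iff_dvd.mp h
  have h3 := i.big p hp h2
  have h4 := Nat.le_of_dvd hq h1
  omega

lemma cod (hd : 0 < d) (i : Idx q d) : Nat.Coprime i.r d := by
  by_contra h
  obtain ⟨p, hp, h1, h2⟩ := Nat.Prime.not_coprime_iff_dvd.mp h
  have h3 := i.big p hp h1
  have h4 := Nat.le_of_dvd hd h2
  omega

/-- the quadratic character -/
noncomputable def rho (i : Idx q d) : DirichletCharacter ℂ i.r :=
  (H385.jac_char i.r i.odd i.sqf).choose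

lemma rho_prim (i : Idx q d) : i.rho.IsPrimitive := (H385.jac_char i.r i.odd i.sqf).choose_spec.1

lemma rho_val (i : Idx q d) (n : ℕ) : i.rho (n : ZMod i.r) = (jacobiSym n i.r : ℂ) :=
  (H385.jac_char i.r i.odd i.sqf).choose_spec.2 n

/-- the complex character -/
noncomputable def psC (i : Idx q d) : DirichletCharacter ℂ q :=
  i.ψ.ringHomComp (Int.castRingHom ℂ)

/-- the character modulo `q r` -/
noncomputable def chi (i : Idx q d) : DirichletCharacter ℂ (q * i.r) := H385.pm i.psC i.rho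

/-- the values -/
noncomputable def v (i : Idx q d) (m : ℕ) : ℝ := ((i.ψ (m : ZMod q) : ℤ) : ℝ) * Jr (m : ℤ) i.r

lemma chi_val (i : Idx q d) (m : ℕ) : i.chi (m : ZMod (q * i.r)) = ((i.v m : ℝ) : ℂ) := by
  unfold chi v psC
  rw [H385.pm_apply, rho_val, MulChar.ringHomComp_apply]
  unfold Jr
  push_cast
  rfl

lemma v_abs (i : Idx q d) (m : ℕ) : |i.v m| ≤ 1 := by
  have h3 := DirichletCharacter.norm_le_one i.chi (m : ZMod (q * i.r))
  rw [chi_val, Complex.norm_real, Real.norm_eq_abs] at h3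
  exact h3

/-- the two cofactors -/
lemma cof (i j : Idx q d) (h : i.r ≠ j.r) :
    1 < (i.r / Nat.gcd i.r j.r) * (j.r / Nat.gcd i.r j.r) ∧
    Squarefree ((i.r / Nat.gcd i.r j.r) * (j.r / Nat.gcd i.r j.r)) ∧
    (∀ p : ℕ, p.Prime → p ∣ (i.r / Nat.gcd i.r j.r) * (j.r / Nat.gcd i.r j.r) → q + d + 2 < p) := by
  have hg : 0 < Nat.gcd i.r j.r := Nat.gcd_pos_of_pos_left _ i.pos
  have h1 : Nat.gcd i.r j.r * (i.r / Nat.gcd i.r j.r) = i.r :=
    Nat.mul_div_cancel' (Nat.gcd_dvd_left _ _)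
  have h2 : Nat.gcd i.r j.r * (j.r / Nat.gcd i.r j.r) = j.r :=
    Nat.mul_div_cancel' (Nat.gcd_dvd_right _ _)
  have d1 : (i.r / Nat.gcd i.r j.r) ∣ i.r := Dvd.intro_left _ h1
  have d2 : (j.r / Nat.gcd i.r j.r) ∣ j.r := Dvd.intro_left _ h2
  have hc : Nat.Coprime (i.r / Nat.gcd i.r j.r) (j.r / Nat.gcd i.r j.r) :=
    Nat.coprime_div_gcd_div_gcd hg
  refine ⟨?_, ?_, ?_⟩
  · have p1 : 0 < i.r / Nat.gcd i.r j.r := Nat.pos_of_dvd_of_pos d1 i.pos
    have p2 : 0 < j.r / Nat.gcd i.r j.r := Nat.pos_of_dvd_of_pos d2 j.pos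
    by_contra hh
    have h3 : (i.r / Nat.gcd i.r j.r) * (j.r / Nat.gcd i.r j.r) = 1 := by
      have := Nat.mul_pos p1 p2
      omega
    obtain ⟨h4, h5⟩ := mul_eq_one.1 h3
    rw [h4, mul_one] at h1
    rw [h5, mul_one] at h2
    exact h (h1.symm.trans h2)
  · rw [Nat.squarefree_mul hc]
    exact ⟨i.sqf.squarefree_of_dvd d1, j.sqf.squarefree_of_dvd d2⟩
  · intro p hp hd
    rcases (Nat.Prime.dvd_mul hp).1 hd with h3 | h3
    · exact i.big p hp (h3.trans d1)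
    · exact j.big p hp (h3.trans d2)

open Classical in
/-- the third character -/
noncomputable def op (i j : Idx q d) : Idx q d :=
  if h : i.r ≠ j.r then
    { ψ := i.ψ * j.ψ
      r := (i.r / Nat.gcd i.r j.r) * (j.r / Nat.gcd i.r j.r)
      one_lt := (cof i j h).1
      sqf := (cof i j h).2.1
      big := (cof i j h).2.2 } else i

lemma op_r {i j : Idx q d} (h : i.r ≠ j.r) :
    (op i j).r = (i.r / Nat.gcd i.r j.r) * (j.r / Nat.gcd i.r j.r) := by
  unfold op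
  rw [dif_pos h]

lemma op_ψ {i j : Idx q d} (h : i.r ≠ j.r) : (op i j).ψ = i.ψ * j.ψ := by
  unfold op
  rw [dif_pos h]

lemma op_le {i j : Idx q d} (h : i.r ≠ j.r) : (op i j).r ≤ i.r * j.r := by
  rw [op_r h]
  exact Nat.mul_le_mul (Nat.div_le_self _ _) (Nat.div_le_self _ _)

lemma Jr_mul (m : ℤ) {a b : ℕ} (ha : 0 < a) (hb : 0 < b) : Jr m (a * b) = Jr m a * Jr m b := by
  have : NeZero a := ⟨ha.ne'⟩
  have : NeZero b := ⟨hb.ne'⟩
  unfold Jr
  rw [jacobiSym.mul_right]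
  push_cast
  rfl

/-- **nonnegativity** -/
lemma nonneg {i j : Idx q d} (h : i.r ≠ j.r) (m : ℕ) :
    0 ≤ (if Nat.Coprime m q then (1 : ℝ) else 0) + i.v m + j.v m + (op i j).v m := by
  by_cases hm : Nat.Coprime m q
  · rw [if_pos hm]
    have hg : 0 < Nat.gcd i.r j.r := Nat.gcd_pos_of_pos_left _ i.pos
    have h1 : Nat.gcd i.r j.r * (i.r / Nat.gcd i.r j.r) = i.r :=
      Nat.mul_div_cancel' (Nat.gcd_dvd_left _ _)
    have h2 : Nat.gcd i.r j.r * (j.r / Nat.gcd i.r j.r) = j.r :=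
      Nat.mul_div_cancel' (Nat.gcd_dvd_right _ _)
    have p1 : 0 < i.r / Nat.gcd i.r j.r := by
      refine Nat.pos_of_ne_zero fun h3 => ?_
      rw [h3, mul_zero] at h1
      exact i.pos.ne h1
    have p2 : 0 < j.r / Nat.gcd i.r j.r := by
      refine Nat.pos_of_ne_zero fun h3 => ?_
      rw [h3, mul_zero] at h2
      exact j.pos.ne h2
    have e1 : Jr (m : ℤ) i.r = Jr (m : ℤ) (Nat.gcd i.r j.r) * Jr (m : ℤ) (i.r / Nat.gcd i.r j.r) := by
      rw [← Jr_mul _ hg p1, h1]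
    have e2 : Jr (m : ℤ) j.r = Jr (m : ℤ) (Nat.gcd i.r j.r) * Jr (m : ℤ) (j.r / Nat.gcd i.r j.r) := by
      rw [← Jr_mul _ hg p2, h2]
    have e3 : (op i j).v m = (((i.ψ (m : ZMod q) : ℤ) : ℝ) * ((j.ψ (m : ZMod q) : ℤ) : ℝ)) *
        (Jr (m : ℤ) (i.r / Nat.gcd i.r j.r) * Jr (m : ℤ) (j.r / Nat.gcd i.r j.r)) := by
      unfold v
      rw [op_ψ h, op_r h, Jr_mul _ p1 p2, MulChar.mul_apply]
      push_cast
      ring
    have v1 := i.v_abs m
    have v2 := j.v_abs m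
    have v3 := (op i j).v_abs m
    rw [abs_le] at v1 v2 v3
    by_cases hmg : Nat.Coprime m (Nat.gcd i.r j.r)
    · have h3 : Jr (m : ℤ) (Nat.gcd i.r j.r) ^ 2 = 1 := by
        unfold Jr
        have : ((m : ℤ).gcd ((Nat.gcd i.r j.r : ℕ) : ℤ)) = 1 := by
          rw [Int.gcd_natCast_natCast]
          exact hmg
        have h4 := jacobiSym.sq_one this
        exact_mod_cast h4
      have h4 : (op i j).v m = i.v m * j.v m := by
        rw [e3]
        unfold v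
        rw [e1, e2]
        calc _ = (((i.ψ (m : ZMod q) : ℤ) : ℝ) * ((j.ψ (m : ZMod q) : ℤ) : ℝ)) *
            (Jr (m : ℤ) (i.r / Nat.gcd i.r j.r) * Jr (m : ℤ) (j.r / Nat.gcd i.r j.r)) * 1 := by ring
          _ = _ := by rw [← h3]; ring
      rw [h4]
      nlinarith [v1.1, v2.1]
    · have h3 : Jr (m : ℤ) (Nat.gcd i.r j.r) = 0 := by
        unfold Jr
        have : NeZero (Nat.gcd i.r j.r) := ⟨hg.ne'⟩
        have h4 : jacobiSym (m : ℤ) (Nat.gcd i.r j.r) = 0 := by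
          rw [jacobiSym.eq_zero_iff_not_coprime, Int.gcd_natCast_natCast]
          exact hmg
        rw [h4]
        simp
      have h4 : i.v m = 0 := by unfold v; rw [e1, h3]; ring
      have h5 : j.v m = 0 := by unfold v; rw [e2, h3]; ring
      rw [h4, h5]
      linarith [v3.1]
  · rw [if_neg hm]
    have hnu : ¬ IsUnit (m : ZMod q) := fun h => hm ((ZMod.isUnit_iff_coprime _ _).1 h)
    have h1 : ∀ k : Idx q d, k.v m = 0 := by
      intro k
      unfold v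
      rw [MulChar.map_nonunit _ hnu]
      simp
    rw [h1, h1, h1]
    simp

end Idx

section
variable {K : Type} [Field K] [NumberField K]

/-- the ray class character -/
noncomputable def eta (K : Type) [Field K] [NumberField K] {q d : ℕ} (i : Idx q d) :
    Ideal (𝓞 K) →*₀ ℂ := tw (tr K) i.chi

lemma eta_ne {q d : ℕ} (i : Idx q d) {𝔞 : Ideal (𝓞 K)} (h : 𝔞 ≠ 0) :
    eta K i 𝔞 = ((i.v (Ideal.absNorm 𝔞) : ℝ) : ℂ) := by
  unfold eta
  rw [tw_ne h, i.chi_val]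

lemma eta_im {q d : ℕ} (i : Idx q d) (𝔞 : Ideal (𝓞 K)) : (eta K i 𝔞).im = 0 := by
  by_cases h : 𝔞 = 0
  · rw [h, map_zero]; rfl
  · rw [eta_ne i h, Complex.ofReal_im]

lemma eta_le {q d : ℕ} (i : Idx q d) (𝔞 : Ideal (𝓞 K)) : ‖eta K i 𝔞‖ ≤ 1 := by
  by_cases h : 𝔞 = 0
  · rw [h, map_zero, norm_zero]; exact zero_le_one
  · rw [eta_ne i h, Complex.norm_real, Real.norm_eq_abs]
    exact i.v_abs _

lemma eta_prime {q d : ℕ} (i : Idx q d) (p : Nat.Primes) (𝔭 : Ideal (𝓞 K))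
    (h : Ideal.absNorm 𝔭 = (p : ℕ)) : eta K i 𝔭 = ((i.v (p : ℕ) : ℝ) : ℂ) := by
  have h0 : 𝔭 ≠ 0 := by
    rintro rfl
    rw [Ideal.zero_eq_bot, Ideal.absNorm_bot] at h
    exact p.2.ne_zero h.symm
  rw [eta_ne i h0, h]

/-- the principal character -/
noncomputable def eta0 (K : Type) [Field K] [NumberField K] (q : ℕ) :
    Ideal (𝓞 K) →*₀ ℂ := tw (tr K) (1 : DirichletCharacter ℂ q)

lemma one_val {q : ℕ} (m : ℕ) : (1 : DirichletCharacter ℂ q) (m : ZMod q) =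
    (((if Nat.Coprime m q then (1 : ℝ) else 0) : ℝ) : ℂ) := by
  split_ifs with hc
  · rw [MulChar.one_apply ((ZMod.isUnit_iff_coprime _ _).2 hc)]
    simp
  · rw [MulChar.map_nonunit _ (fun h => hc ((ZMod.isUnit_iff_coprime _ _).1 h))]
    simp

lemma eta0_im {q : ℕ} (𝔞 : Ideal (𝓞 K)) : (eta0 K q 𝔞).im = 0 := by
  by_cases h : 𝔞 = 0
  · rw [h, map_zero]; rfl
  · unfold eta0
    rw [tw_ne h, one_val, Complex.ofReal_im]

lemma eta0_le {q : ℕ} (𝔞 : Ideal (𝓞 K)) : ‖eta0 K q 𝔞‖ ≤ 1 := by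
  by_cases h : 𝔞 = 0
  · rw [h, map_zero, norm_zero]; exact zero_le_one
  · unfold eta0
    rw [tw_ne h]
    exact DirichletCharacter.norm_le_one _ _

/-! ## logarithmic derivatives -/

/-- the coefficients of the logarithmic derivative -/
noncomputable def bk (η : Ideal (𝓞 K) →*₀ ℂ) (n : ℕ) : ℂ := ((vonMangoldt n : ℝ) : ℂ) * cc η n

lemma bk_norm_le {η : Ideal (𝓞 K) →*₀ ℂ} (hη : ∀ 𝔞, ‖η 𝔞‖ ≤ 1) (n : ℕ) :
    ‖bk η n‖ ≤ Module.finrank ℚ K * vonMangoldt n := by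
  obtain ⟨A, -, hDK⟩ := t_dirK K
  have h1 := (hDK η hη).2.2.2.2.2.2.1 n
  unfold bk
  rw [norm_mul, Complex.norm_real, Real.norm_of_nonneg ArithmeticFunction.vonMangoldt_nonneg,
    mul_comm]
  exact mul_le_mul_of_nonneg_right h1 ArithmeticFunction.vonMangoldt_nonneg

lemma bk_summable {η : Ideal (𝓞 K) →*₀ ℂ} (hη : ∀ 𝔞, ‖η 𝔞‖ ≤ 1) {s : ℂ} (hs : 1 < s.re) :
    LSeriesSummable (bk η) s := by
  have h1 := (ArithmeticFunction.LSeriesSummable_vonMangoldt (s := s) hs).norm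
  refine Summable.of_norm_bounded (h1.mul_left (Module.finrank ℚ K : ℝ)) fun n => ?_
  rw [LSeries.norm_term_eq, LSeries.norm_term_eq]
  rcases eq_or_ne n 0 with rfl | hn
  · simp
  · rw [if_neg hn, if_neg hn, ← mul_div_assoc]
    refine div_le_div_of_nonneg_right ?_ (Real.rpow_nonneg (Nat.cast_nonneg n) _)
    rw [Complex.norm_real, Real.norm_of_nonneg ArithmeticFunction.vonMangoldt_nonneg]
    exact bk_norm_le hη n

lemma bk_ld {η : Ideal (𝓞 K) →*₀ ℂ} (hη : ∀ 𝔞, ‖η 𝔞‖ ≤ 1) {s : ℂ} (hs : 1 < s.re) :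
    LSeries (bk η) s = -(deriv (LI η) s / LI η s) := by
  obtain ⟨A, -, hDK⟩ := t_dirK K
  rw [(hDK η hη).2.2.2.1 s hs, neg_neg]
  unfold LSeries
  refine tsum_congr fun n => ?_
  rcases eq_or_ne n 0 with rfl | hn
  · simp
  · rw [LSeries.term_of_ne_zero hn, Complex.cpow_neg, div_eq_mul_inv]
    simp only [bk]
    ring

lemma LI_deriv {η : Ideal (𝓞 K) →*₀ ℂ} (hη : ∀ 𝔞, ‖η 𝔞‖ ≤ 1) {s : ℂ} (hs : 1 < s.re) :
    HasDerivAt (LI η) (-(LSeries (bk η) s * LI η s)) s ∧ LI η s ≠ 0 := by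
  obtain ⟨A, -, hDK⟩ := t_dirK K
  obtain ⟨-, hd, hn, -⟩ := hDK η hη
  refine ⟨?_, hn s hs⟩
  have h1 := (hd s hs).hasDerivAt
  rw [bk_ld hη hs, neg_mul, neg_neg, div_mul_cancel₀ _ (hn s hs)]
  exact h1

/-- `Λ cc` of the trivial character -/
lemma bk_tr_nonneg (n : ℕ) : ∃ t : ℝ, 0 ≤ t ∧ bk (tr K) n = (t : ℂ) := by
  refine ⟨∑ᶠ 𝔞 ∈ NN K n, (if 𝔞 = 0 then 0 else VM 𝔞), ?_, ?_⟩
  · refine finsum_nonneg fun 𝔞 => finsum_nonneg fun _ => ?_
    split_ifs
    · exact le_rfl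
    · exact VM_nonneg _
  · unfold bk
    rw [mul_comm, cc_mul, finsum_mem_eq_finite_toFinset_sum _ (NN_finite n),
      finsum_mem_eq_finite_toFinset_sum _ (NN_finite n)]
    push_cast
    refine Finset.sum_congr rfl fun 𝔞 _ => ?_
    split_ifs with h
    · rw [h, map_zero, mul_zero, Complex.ofReal_zero]
    · rw [tr_ne h, mul_one]

lemma bk_tw {Q : ℕ} (χ : DirichletCharacter ℂ Q) (n : ℕ) :
    bk (tw (tr K) χ) n = χ (n : ZMod Q) * bk (tr K) n := by
  unfold bk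
  rw [Pool.Agent.Y772.DK.cc_tw]
  ring

/-- the coefficients of the product of four L-functions -/
noncomputable def gg (K : Type) [Field K] [NumberField K] {q d : ℕ} (i j : Idx q d) (n : ℕ) : ℂ :=
  bk (eta0 K q) n + bk (eta K i) n + bk (eta K j) n + bk (eta K (Idx.op i j)) n

lemma gg_nonneg {q d : ℕ} {i j : Idx q d} (h : i.r ≠ j.r) (n : ℕ) : 0 ≤ gg K i j n := by
  obtain ⟨t, ht, h1⟩ := bk_tr_nonneg (K := K) n
  unfold gg eta0 eta
  rw [bk_tw, bk_tw, bk_tw, bk_tw, h1, one_val, Idx.chi_val, Idx.chi_val, Idx.chi_val]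
  have h2 := Idx.nonneg h n
  have e : ((((if Nat.Coprime n q then (1 : ℝ) else 0) : ℝ) : ℂ) * (t : ℂ) + ((i.v n : ℝ) : ℂ) * t +
      ((j.v n : ℝ) : ℂ) * t + (((Idx.op i j).v n : ℝ) : ℂ) * t) =
      ((((if Nat.Coprime n q then (1 : ℝ) else 0) + i.v n + j.v n + (Idx.op i j).v n) * t : ℝ) : ℂ) := by
    push_cast
    ring
  rw [e, Complex.zero_le_real]
  exact mul_nonneg h2 ht

lemma gg_summable {q d : ℕ} (i j : Idx q d) {s : ℂ} (hs : 1 < s.re) :
    LSeriesSummable (gg K i j) s := by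
  have h1 := bk_summable (η := eta0 K q) eta0_le hs
  have h2 := bk_summable (η := eta K i) (eta_le i) hs
  have h3 := bk_summable (η := eta K j) (eta_le j) hs
  have h4 := bk_summable (η := eta K (Idx.op i j)) (eta_le _) hs
  exact ((h1.add h2).add h3).add h4

lemma gg_LSeries {q d : ℕ} (i j : Idx q d) {s : ℂ} (hs : 1 < s.re) :
    LSeries (gg K i j) s = LSeries (bk (eta0 K q)) s + LSeries (bk (eta K i)) s +
      LSeries (bk (eta K j)) s + LSeries (bk (eta K (Idx.op i j))) s := by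
  have h1 := bk_summable (η := eta0 K q) eta0_le hs
  have h2 := bk_summable (η := eta K i) (eta_le i) hs
  have h3 := bk_summable (η := eta K j) (eta_le j) hs
  have h4 := bk_summable (η := eta K (Idx.op i j)) (eta_le _) hs
  have e : gg K i j = bk (eta0 K q) + bk (eta K i) + bk (eta K j) + bk (eta K (Idx.op i j)) := by
    funext n
    rfl
  rw [e, LSeries_add ((h1.add h2).add h3) h4, LSeries_add (h1.add h2) h3, LSeries_add h1 h2]

end

end Pool.Agent.Y773.G.R50
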