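import Pool.Agent.L7h50.SI.Idx

/-! # Siegel's theorem for the real characters of the norm -/

set_option autoImplicit false
set_option linter.unusedSectionVars false

open NumberField Complex Filter Topology

namespace Pool.Agent.Y773.G.R50

open Pool.Agent.Y773.G.R78
open Pool.Agent.Y773 (LI cc tw VM StDirK)
open Pool.Agent.Y772.DK (t_dirK)
open Pool.Agent.Y772.G (LI_pole nv_tot)
open scoped ComplexOrder

lemma re_norm {z : ℂ} (h0 : 0 < z.re) (h : z.im = 0) : ‖z‖ = z.re := by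
  have h1 := Pool.Agent.L7h50.SI.eq_re h
  rw [h1, Complex.norm_real, Complex.ofReal_re, Real.norm_of_nonneg h0.le]

lemma idx_finite {q d : ℕ} [NeZero q] (a : ℝ) : {j : Idx q d | (j.r : ℝ) = a}.Finite := by
  have hfin : Finite (DirichletCharacter ℤ q) := inferInstance
  refine Set.Finite.of_injOn (f := fun j : Idx q d => j.ψ) (t := Set.univ) (fun _ _ => Set.mem_univ _)
    ?_ Set.finite_univ
  intro i hi j hj hij
  have h1 : (i.r : ℝ) = j.r := by
    have h2 : (i.r : ℝ) = a := hi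
    have h3 : (j.r : ℝ) = a := hj
    rw [h2, h3]
  have h1' : i.r = j.r := by exact_mod_cast h1
  have h2 : i.ψ = j.ψ := hij
  cases i
  cases j
  simp only at h1' h2
  subst h1' h2
  rfl

/-- **Siegel's theorem at `1`** -/
theorem siegel_one (K : Type) [Field K] [NumberField K] {q : ℕ} (hq : 1 < q) :
    ∃ F : Idx q (discr K).natAbs → ℂ → ℂ, (∀ i, Differentiable ℂ (F i)) ∧
      (∀ i (s : ℂ), 1 < s.re → F i s = LI (eta K i) s) ∧ (∀ i (x : ℝ), (F i x).im = 0) ∧
      (∀ δ : ℝ, 0 < δ → ∃ δ' C : ℝ, 0 < δ' ∧ δ' ≤ 1 ∧ 0 < C ∧ ∀ i (s : ℂ), ‖s - 1‖ ≤ δ' →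
        ‖F i s‖ ≤ C * (i.r : ℝ) ^ δ) ∧
      ∀ ε : ℝ, 0 < ε → ∃ c : ℝ, 0 < c ∧ ∀ i, c * (i.r : ℝ) ^ (-ε) ≤ (F i 1).re := by
  classical
  have hq0 : 0 < q := by omega
  have : NeZero q := ⟨hq0.ne'⟩
  set d : ℕ := (discr K).natAbs with hd
  have hd0 : 0 < d := Int.natAbs_pos.mpr (discr_ne_zero K)
  set n : ℕ := Module.finrank ℚ K with hn
  obtain ⟨C, A, hC1, hA0, hdisc⟩ := disc K
  -- the moduli
  have hdata : ∀ i : Idx q d, ∃ e, IsModChar (Ideal.span {((q * i.r : ℕ) : 𝓞 K)}) e (eta K i) := by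
    intro i
    exact modChar (K := K) (by have := i.one_lt; nlinarith) i.chi
  choose e he using hdata
  have hnt : ∀ i : Idx q d, ∃ 𝔞, IsCoprime 𝔞 (Ideal.span {((q * i.r : ℕ) : 𝓞 K)}) ∧
      eta K i 𝔞 ≠ 1 := by
    intro i
    refine nontriv (K := K) hq0 i.one_lt (i.cop hq0) ?_ i.psC i.rho i.rho_prim
    rw [Int.isCoprime_iff_gcd_eq_one]
    exact i.cod hd0
  choose F hF1 hF2 hF3 hF4 using fun i : Idx q d => hdisc _ (e i) (eta K i) (he i) (hnt i)
  have hr1 : ∀ i : Idx q d, (1 : ℝ) ≤ (i.r : ℝ) := fun i => by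
    have := i.one_lt
    exact_mod_cast this.le
  have hq1 : (1 : ℝ) ≤ q := by exact_mod_cast hq.le
  have hnorm : ∀ (i : Idx q d) (a : ℝ),
      ((Ideal.absNorm (Ideal.span {((q * i.r : ℕ) : 𝓞 K)}) : ℕ) : ℝ) ^ a =
        (q : ℝ) ^ (n * a) * (i.r : ℝ) ^ (n * a) := by
    intro i a
    have h5 : Ideal.absNorm (Ideal.span {((q * i.r : ℕ) : 𝓞 K)}) = (q * i.r) ^ n := by
      rw [Ideal.absNorm_span_natCast, RingOfIntegers.rank]
    have hr0 : (0 : ℝ) ≤ i.r := Nat.cast_nonneg _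
    have hq0' : (0 : ℝ) ≤ q := Nat.cast_nonneg _
    rw [h5, Nat.cast_pow, Nat.cast_mul, ← Real.mul_rpow hq0' hr0, Real.rpow_mul (by positivity),
      Real.rpow_natCast]
  have hreal : ∀ i (x : ℝ), (F i x).im = 0 := fun i => real_ext (hF1 i) fun s hs => by
    rw [hF2 i s hs, hF2 i _ (by simpa using hs), LI_conj (eta_im i)]
  -- near `1`
  have hnear : ∀ δ : ℝ, 0 < δ → ∃ δ' C : ℝ, 0 < δ' ∧ δ' ≤ 1 ∧ 0 < C ∧ ∀ i (s : ℂ),
      ‖s - 1‖ ≤ δ' → ‖F i s‖ ≤ C * (i.r : ℝ) ^ δ := by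
    intro δ hδ
    have hnA : 0 < (n : ℝ) * A + 1 := by positivity
    refine ⟨min 1 (δ / (n * A + 1)), C / min 1 (δ / (n * A + 1)) *
      (q : ℝ) ^ (n * (A * min 1 (δ / (n * A + 1)))), lt_min one_pos (by positivity),
      min_le_left _ _, ?_, fun i s hs => ?_⟩
    · have h1 : 0 < min 1 (δ / (n * A + 1)) := lt_min one_pos (by positivity)
      have h2 : (0 : ℝ) < q := by linarith
      positivity
    · have h1 : 0 < min 1 (δ / (n * A + 1)) := lt_min one_pos (by positivity)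
      have h2 := hF4 i _ h1 (min_le_left _ _) s hs
      rw [hnorm, ← mul_assoc] at h2
      refine h2.trans ?_
      have h3 : (n : ℝ) * (A * min 1 (δ / (n * A + 1))) ≤ δ := by
        have h4 : min 1 (δ / (n * A + 1)) ≤ δ / (n * A + 1) := min_le_right _ _
        rw [le_div_iff₀ hnA] at h4
        nlinarith
      have h5 : (0 : ℝ) < q := by linarith
      exact mul_le_mul_of_nonneg_left (Real.rpow_le_rpow_of_exponent_le (hr1 i) h3) (by positivity)
  refine ⟨F, hF1, hF2, hreal, hnear, ?_⟩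
  -- the principal character
  obtain ⟨e0, he0⟩ := modChar (K := K) hq (1 : DirichletCharacter ℂ q)
  obtain ⟨Z, hZ1, hZ2, -⟩ := LI_pole he0
  have hZ2' : ∀ s : ℂ, 1 < s.re → Z s = (s - 1) * LI (eta0 K q) s := hZ2
  have hZr : ∀ x : ℝ, (Z x).im = 0 := real_ext hZ1 fun s hs => by
    rw [hZ2' s hs, hZ2' _ (by simpa using hs), LI_conj eta0_im, map_mul, map_sub, map_one]
  have hZone : 0 < (Z 1).re := by
    obtain ⟨c, hc, hev⟩ := principal_pole K hq0
    have h1 : Tendsto (fun x : ℝ => (Z (x : ℂ)).re) (𝓝[>] 1) (𝓝 (Z 1).re) := by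
      have h2 : Continuous (fun x : ℝ => (Z (x : ℂ)).re) :=
        Complex.continuous_re.comp (hZ1.continuous.comp Complex.continuous_ofReal)
      have h3 := h2.tendsto 1
      rw [Complex.ofReal_one] at h3
      exact h3.mono_left nhdsWithin_le_nhds
    refine lt_of_lt_of_le hc (ge_of_tendsto h1 ?_)
    filter_upwards [hev, self_mem_nhdsWithin] with x hx hx1
    have hx1 : 1 < x := hx1
    refine hx.trans (le_of_eq ?_)
    obtain ⟨h4, h5⟩ := LI_pos (η := eta0 K q) eta0_le eta0_im hx1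
    have h6 : ‖LI (tw (tr K) (1 : DirichletCharacter ℂ q)) (x : ℂ)‖ = (LI (eta0 K q) (x : ℂ)).re :=
      re_norm h4 h5
    rw [h6, hZ2' (x : ℂ) (by simpa using hx1)]
    have h7 : ((x : ℂ) - 1) = ((x - 1 : ℝ) : ℂ) := by push_cast; ring
    rw [h7, Complex.re_ofReal_mul]
  have hZtwo : 0 < (Z 2).re := by
    obtain ⟨h4, h5⟩ := LI_pos (η := eta0 K q) eta0_le eta0_im (x := 2) (by norm_num)
    have e2 : ((2 : ℝ) : ℂ) = 2 := by norm_num
    rw [e2] at h4
    have h6 : Z 2 = LI (eta0 K q) 2 := by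
      rw [hZ2' 2 (by norm_num)]
      norm_num
    rw [h6]
    exact h4
  -- positivity of the L-functions
  have hLgt : ∀ i (x : ℝ), 1 < x → 0 < (F i x).re := by
    intro i x hx
    rw [hF2 i (x : ℂ) (by simpa using hx)]
    exact (LI_pos (eta_le i) (eta_im i) hx).1
  have hLpos : ∀ i (x : ℝ), 1 ≤ x → 0 < (F i x).re := by
    intro i x hx
    rcases hx.lt_or_eq with h | h
    · exact hLgt i x h
    · subst h
      have h1 : Tendsto (fun x : ℝ => (F i (x : ℂ)).re) (𝓝[>] 1) (𝓝 (F i ((1 : ℝ) : ℂ)).re) := by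
        have h2 : Continuous (fun x : ℝ => (F i (x : ℂ)).re) :=
          Complex.continuous_re.comp ((hF1 i).continuous.comp Complex.continuous_ofReal)
        exact (h2.tendsto 1).mono_left nhdsWithin_le_nhds
      have h2 : 0 ≤ (F i ((1 : ℝ) : ℂ)).re := by
        refine ge_of_tendsto h1 ?_
        filter_upwards [self_mem_nhdsWithin] with x hx
        exact (hLgt i x hx).le
      have h3 : F i ((1 : ℝ) : ℂ) ≠ 0 := by
        refine nv_tot t_ent (he i) (s₀ := ((1 : ℝ) : ℂ)) (by simp) ((hF1 i).analyticAt _) ?_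
        exact Filter.Eventually.of_forall fun s hs => hF2 i s hs
      refine lt_of_le_of_ne h2 fun h4 => h3 ?_
      apply Complex.ext
      · simpa using h4.symm
      · simpa using hreal i 1
  obtain ⟨A2, hA2, hDK⟩ := t_dirK K
  have hL2 : ∀ i, A2⁻¹ ≤ (F i 2).re := by
    intro i
    obtain ⟨-, -, -, -, -, h1, -⟩ := hDK (eta K i) (eta_le i)
    have h2 := h1 2 (by norm_num)
    have e2 : ((2 : ℝ) : ℂ) = 2 := by norm_num
    have h3 := hLgt i 2 (by norm_num)
    have h4 := hreal i 2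
    rw [e2] at h3 h4
    rw [← hF2 i 2 (by norm_num), re_norm h3 h4] at h2
    exact h2
  have hA2' : 0 < A2⁻¹ := by positivity
  refine Pool.Agent.L7h50.SI.abs_siegel (I := Idx q d) Z F (fun i => (i.r : ℝ)) Idx.op hZ1 hZr hZone
    hZtwo hF1 hreal hr1 hLpos A2⁻¹ hA2' hL2 (n * A) (C * (q : ℝ) ^ (n * A)) (by positivity) ?_ ?_ ?_
    (gg K) ?_ ?_
  · intro i s hs
    have h2 := hF3 i s hs
    rw [hnorm, ← mul_assoc] at h2
    exact h2
  · intro η hη
    obtain ⟨δ', C', h1, -, -, h3⟩ := hnear η hη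
    exact ⟨C', fun i => h3 i 1 (by rw [sub_self, norm_zero]; exact h1.le)⟩
  · intro i j hij
    have h1 : i.r ≠ j.r := fun h => hij (by rw [h])
    exact_mod_cast Idx.op_le h1
  · intro i j hij
    have h1 : i.r ≠ j.r := fun h => hij (by rw [h])
    refine ⟨fun m => gg_nonneg h1 m, fun s hs => gg_summable i j hs, fun s hs => ?_⟩
    have h2 : (fun s => (Z s * (F i s * F j s * F (Idx.op i j) s)) / (s - 1)) =ᶠ[𝓝 s]
        fun s => LI (eta0 K q) s * (LI (eta K i) s * LI (eta K j) s * LI (eta K (Idx.op i j)) s) := by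
      have h4 : {z : ℂ | 1 < z.re} ∈ 𝓝 s :=
        (isOpen_lt continuous_const continuous_re).mem_nhds hs
      filter_upwards [h4] with z hz
      have hz1 : z - 1 ≠ 0 := by
        intro h
        have h5 : z = 1 := sub_eq_zero.1 h
        rw [h5] at hz
        simp at hz
      rw [hZ2' z hz, hF2 i z hz, hF2 j z hz, hF2 _ z hz]
      field_simp
    rw [h2.deriv_eq, h2.eq_of_nhds, gg_LSeries i j hs]
    obtain ⟨a0, -⟩ := LI_deriv (η := eta0 K q) eta0_le hs
    obtain ⟨a1, -⟩ := LI_deriv (η := eta K i) (eta_le i) hs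
    obtain ⟨a2, -⟩ := LI_deriv (η := eta K j) (eta_le j) hs
    obtain ⟨a3, -⟩ := LI_deriv (η := eta K (Idx.op i j)) (eta_le _) hs
    have h5 := (a0.mul ((a1.mul a2).mul a3)).deriv
    have h6 : (LI (eta0 K q) * (LI (eta K i) * LI (eta K j) * LI (eta K (Idx.op i j)))) =
        fun s => LI (eta0 K q) s * (LI (eta K i) s * LI (eta K j) s *
          LI (eta K (Idx.op i j)) s) := by
      funext z
      rfl
    rw [h6] at h5
    rw [h5]
    simp only [Pi.mul_apply]
    ring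
  · intro i
    have hfin := idx_finite (q := q) (d := d) (i.r : ℝ)
    obtain ⟨a, ha, hmin⟩ := Set.exists_min_image _ (fun j : Idx q d => (F j 1).re) hfin ⟨i, rfl⟩
    refine ⟨(F a 1).re, ?_, fun j hj => hmin j hj⟩
    have := hLpos a 1 le_rfl
    simpa using this

/-- **Siegel's theorem near `1`** -/
theorem siegel_near (K : Type) [Field K] [NumberField K] {q : ℕ} (hq : 1 < q) :
    ∀ ε : ℝ, 0 < ε → ∃ C : ℝ, ∀ (i : Idx q (discr K).natAbs) (x : ℝ), 1 < x → x ≤ 2 →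
      -(ε * Real.log i.r) - C ≤ Real.log ‖LI (eta K i) (x : ℂ)‖ := by
  intro ε₀ hε₀
  obtain ⟨F, hF1, hF2, hreal, hnear, hsieg⟩ := siegel_one K hq
  obtain ⟨C1, hC1, hge⟩ := log_LI_ge K
  set n : ℕ := Module.finrank ℚ K with hn
  have hn0 : (0 : ℝ) ≤ n := Nat.cast_nonneg _
  set ε : ℝ := ε₀ / (1 + 2 * n) with hε
  have hε0 : 0 < ε := by positivity
  obtain ⟨δ, M, hδ0, hδ1, hM0, hM⟩ := hnear ε hε0
  obtain ⟨c, hc0, hc⟩ := hsieg ε hε0
  set τ : ℝ := min (δ / 2) (c * δ / (4 * M)) with hτ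
  have hτ0 : 0 < τ := lt_min (by positivity) (by positivity)
  refine ⟨|Real.log (c / 2)| + (n * |Real.log τ| + C1), fun i x hx1 hx2 => ?_⟩
  have hr1 : (1 : ℝ) ≤ (i.r : ℝ) := by
    have := i.one_lt
    exact_mod_cast this.le
  have hr0 : (0 : ℝ) < i.r := by linarith
  have hlogr : 0 ≤ Real.log i.r := Real.log_nonneg hr1
  have hεn : ε * (1 + 2 * n) = ε₀ := by
    rw [hε]
    field_simp
  have hP1 : 0 ≤ |Real.log (c / 2)| := abs_nonneg _
  have hP2 : 0 ≤ (n : ℝ) * |Real.log τ| := by positivity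
  by_cases hx : x - 1 ≤ τ * (i.r : ℝ) ^ (-(2 * ε))
  · -- near `1`
    have hrε : (i.r : ℝ) ^ (-(2 * ε)) ≤ 1 :=
      Real.rpow_le_one_of_one_le_of_nonpos hr1 (by linarith)
    have hrε0 : 0 < (i.r : ℝ) ^ (-(2 * ε)) := Real.rpow_pos_of_pos hr0 _
    have hxδ : x - 1 ≤ δ / 2 := by
      have h1 : τ ≤ δ / 2 := min_le_left _ _
      nlinarith
    have hder : ∀ z ∈ Metric.closedBall (1 : ℂ) (δ / 2), ‖deriv (F i) z‖ ≤
        M * (i.r : ℝ) ^ ε / (δ / 2) := by
      intro z hz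
      refine Complex.norm_deriv_le_of_forall_mem_sphere_norm_le (by positivity)
        (hF1 i).diffContOnCl fun w hw => hM i w ?_
      rw [Metric.mem_closedBall, dist_eq_norm] at hz
      rw [Metric.mem_sphere, dist_eq_norm] at hw
      calc ‖w - 1‖ = ‖(w - z) + (z - 1)‖ := by ring_nf
        _ ≤ ‖w - z‖ + ‖z - 1‖ := norm_add_le _ _
        _ ≤ δ := by linarith
    have h1 := (convex_closedBall (1 : ℂ) (δ / 2)).norm_image_sub_le_of_norm_deriv_le
      (f := F i) (C := M * (i.r : ℝ) ^ ε / (δ / 2)) (x := 1) (y := (x : ℂ))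
      (fun z _ => (hF1 i) z) hder (Metric.mem_closedBall_self (by positivity)) (by
        rw [Metric.mem_closedBall, dist_eq_norm]
        have : ((x : ℂ) - 1) = ((x - 1 : ℝ) : ℂ) := by push_cast; ring
        rw [this, Complex.norm_real, Real.norm_of_nonneg (by linarith)]
        exact hxδ)
    have h2 : ‖((x : ℂ) - 1)‖ = x - 1 := by
      have : ((x : ℂ) - 1) = ((x - 1 : ℝ) : ℂ) := by push_cast; ring
      rw [this, Complex.norm_real, Real.norm_of_nonneg (by linarith)]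
    rw [h2] at h1
    have h3 : (F i 1).re - (F i x).re ≤ ‖F i x - F i 1‖ := by
      rw [← norm_neg, neg_sub]
      have := Complex.re_le_norm (F i 1 - F i x)
      rwa [Complex.sub_re] at this
    have h4 : M * (i.r : ℝ) ^ ε / (δ / 2) * (x - 1) ≤ c / 2 * (i.r : ℝ) ^ (-ε) := by
      have h5 : (i.r : ℝ) ^ ε * (i.r : ℝ) ^ (-(2 * ε)) = (i.r : ℝ) ^ (-ε) := by
        rw [← Real.rpow_add hr0]
        congr 1
        ring
      have h6 : τ ≤ c * δ / (4 * M) := min_le_right _ _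
      have hrε' : 0 < (i.r : ℝ) ^ (-ε) := Real.rpow_pos_of_pos hr0 _
      calc M * (i.r : ℝ) ^ ε / (δ / 2) * (x - 1)
          ≤ M * (i.r : ℝ) ^ ε / (δ / 2) * (τ * (i.r : ℝ) ^ (-(2 * ε))) :=
            mul_le_mul_of_nonneg_left hx (by positivity)
        _ = M / (δ / 2) * τ * ((i.r : ℝ) ^ ε * (i.r : ℝ) ^ (-(2 * ε))) := by ring
        _ = M / (δ / 2) * τ * (i.r : ℝ) ^ (-ε) := by rw [h5]
        _ ≤ M / (δ / 2) * (c * δ / (4 * M)) * (i.r : ℝ) ^ (-ε) := by
            refine mul_le_mul_of_nonneg_right ?_ hrε'.le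
            exact mul_le_mul_of_nonneg_left h6 (by positivity)
        _ = c / 2 * (i.r : ℝ) ^ (-ε) := by
            field_simp
            ring
    have h5 := hc i
    have h6 : c / 2 * (i.r : ℝ) ^ (-ε) ≤ (F i x).re := by linarith
    have hrε' : 0 < (i.r : ℝ) ^ (-ε) := Real.rpow_pos_of_pos hr0 _
    have h7 : c / 2 * (i.r : ℝ) ^ (-ε) ≤ ‖LI (eta K i) (x : ℂ)‖ := by
      rw [← hF2 i (x : ℂ) (by simpa using hx1)]
      exact h6.trans (Complex.re_le_norm _)
    have h8 := Real.log_le_log (by positivity) h7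
    rw [Real.log_mul (by positivity) hrε'.ne', Real.log_rpow hr0] at h8
    have h9 := (neg_abs_le (Real.log (c / 2)))
    have h10 : ε * Real.log i.r ≤ ε₀ * Real.log i.r := by
      refine mul_le_mul_of_nonneg_right ?_ hlogr
      rw [← hεn]
      nlinarith
    linarith
  · push Not at hx
    have hrε0 : 0 < (i.r : ℝ) ^ (-(2 * ε)) := Real.rpow_pos_of_pos hr0 _
    have h1 := hge (eta K i) (eta_le i) i.v (fun p => i.v_abs p) (eta_prime i) x hx1 hx2
    have h2 : Real.log (1 / (x - 1)) ≤ |Real.log τ| + 2 * ε * Real.log i.r := by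
      have h3 := Real.log_le_log (by positivity) hx.le
      rw [Real.log_mul hτ0.ne' hrε0.ne', Real.log_rpow hr0] at h3
      rw [one_div, Real.log_inv]
      have := neg_abs_le (Real.log τ)
      linarith
    have h3 := mul_le_mul_of_nonneg_left h2 hn0
    have h4 : (n : ℝ) * (2 * ε * Real.log i.r) ≤ ε₀ * Real.log i.r := by
      rw [← hεn]
      have := mul_nonneg hε0.le hlogr
      nlinarith
    linarith

end Pool.Agent.Y773.G.R50
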